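import Mathlib

/-!
MODULE B.CellS: sums over the centres of the cells, and the choice of the number of functionals.

PROOF.  `cell_sum`: the points `j L` have pairwise distance at least `L ≥ √s`, so for every `k : ℕ` at most
two of them have `k √s ≤ |j L - W| < (k+1) √s` (one on each side); so the sum is at most
`2 ∑_k exp(-3k^2/16) ≤ 2 ∑_k 2 * 2^(-k) = 8`; `exp(-3k^2/16) ≤ 2 * 2^(-k)` because
`3k^2/16 ≥ (k-1) log 2` (negative discriminant).  (Same proof as `sep_sum` in `HAP/Lat.lean`; finitely many `k`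
occur.)
`ksel`: `Kf j` = the least `K` with `exp 524 * Aj j ≤ 9^K * G` (it exists, `9^K → ∞`, `G > 0`).  If `Kf j ≥ 1`
then `9^(Kf j - 1) * G < exp 524 * Aj j`.  Claim: `Kf j ≤ K₀ + exp 524 * Aj j/(9^K₀ * G)`.  Clear if
`Kf j ≤ K₀`; if `Kf j = K₀ + t`, `t ≥ 1`, then `t ≤ 9^(t-1) < exp 524 * Aj j/(9^K₀ G)`.  Sum over `R`.
-/

set_option autoImplicit false

namespace Pool.Agent.Lib.HAP

open Finset

private theorem cellS_bins {ι : Type*} (V : Finset ι) (κ : ι → ℕ) (f : ι → ℝ) (g : ℕ → ℝ)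
    {c G : ℝ} (hg : ∀ k, 0 ≤ g k) (hG : ∀ K, ∑ k ∈ range K, g k ≤ G) (hc : 0 ≤ c)
    (hcard : ∀ k, ((V.filter (fun v => κ v = k)).card : ℝ) ≤ c)
    (hf : ∀ v ∈ V, f v ≤ g (κ v)) : ∑ v ∈ V, f v ≤ c * G := by
  have h1 : ∑ v ∈ V, g (κ v) = ∑ k ∈ range (V.sup κ + 1), ∑ v ∈ V with κ v = k, g (κ v) := by
    rw [Finset.sum_fiberwise_of_maps_to]
    intro v hv
    rw [mem_range]
    exact Nat.lt_succ_of_le (Finset.le_sup hv)
  calc ∑ v ∈ V, f v ≤ ∑ v ∈ V, g (κ v) := Finset.sum_le_sum hf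
    _ = ∑ k ∈ range (V.sup κ + 1), ∑ v ∈ V with κ v = k, g (κ v) := h1
    _ ≤ ∑ k ∈ range (V.sup κ + 1), c * g k := by
        refine Finset.sum_le_sum fun k _ => ?_
        have h2 : ∑ v ∈ V with κ v = k, g (κ v) = ∑ v ∈ V with κ v = k, g k := by
          refine Finset.sum_congr rfl fun v hv => ?_
          rw [(mem_filter.1 hv).2]
        rw [h2, Finset.sum_const, nsmul_eq_mul]
        exact mul_le_mul_of_nonneg_right (hcard k) (hg k)
    _ = c * ∑ k ∈ range (V.sup κ + 1), g k := by rw [Finset.mul_sum]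
    _ ≤ c * G := mul_le_mul_of_nonneg_left (hG _) hc

private theorem cellS_geom (K : ℕ) : ∑ k ∈ range K, (4 : ℝ) * (1 / 2) ^ (k + 1) ≤ 4 := by
  have h : ∀ K : ℕ, ∑ k ∈ range K, ((1 : ℝ) / 2) ^ (k + 1) = 1 - (1 / 2) ^ K := by
    intro K
    induction K with
    | zero => simp
    | succ K ih => rw [Finset.sum_range_succ, ih]; ring
  rw [← Finset.mul_sum, h]
  have : (0 : ℝ) ≤ (1 / 2) ^ K := by positivity
  linarith

private theorem cellS_exp (k : ℕ) :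
    Real.exp (-(3 / 16) * (k : ℝ) ^ 2) ≤ 4 * (1 / 2) ^ (k + 1) := by
  have hL1 : Real.log 2 ≤ 3 / 4 := by
    have := Real.log_two_lt_d9
    linarith
  have hL0 : 0 ≤ Real.log 2 := Real.log_nonneg (by norm_num)
  have h1 : (4 : ℝ) * (1 / 2) ^ (k + 1) = Real.exp ((1 - (k : ℝ)) * Real.log 2) := by
    rw [sub_mul, one_mul, Real.exp_sub, Real.exp_log (by norm_num), mul_comm (k : ℝ),
      Real.exp_mul, Real.exp_log (by norm_num), Real.rpow_natCast, pow_succ, one_div, inv_pow]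
    field_simp
    norm_num
  rw [h1]
  apply Real.exp_le_exp.2
  have h2 : 0 ≤ Real.log 2 * (3 / 4 - Real.log 2) := mul_nonneg hL0 (by linarith)
  nlinarith [sq_nonneg ((k : ℝ) - 8 / 3 * Real.log 2)]

private theorem cellS_bin {s : ℝ} (hs : 0 < s) (x : ℝ) :
    (⌊|x| / Real.sqrt s⌋₊ : ℝ) * Real.sqrt s ≤ |x| ∧
      |x| < ((⌊|x| / Real.sqrt s⌋₊ : ℝ) + 1) * Real.sqrt s := by
  have h : 0 < Real.sqrt s := Real.sqrt_pos.2 hs
  constructor
  · rw [← le_div_iff₀ h]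
    exact Nat.floor_le (by positivity)
  · rw [← div_lt_iff₀ h]
    exact Nat.lt_floor_add_one _

private theorem cellS_sq {s : ℝ} (hs : 0 < s) (x : ℝ) :
    (⌊|x| / Real.sqrt s⌋₊ : ℝ) ^ 2 ≤ x ^ 2 / s := by
  obtain ⟨h1, _⟩ := cellS_bin hs x
  have h3 : Real.sqrt s ^ 2 = s := Real.sq_sqrt hs.le
  rw [le_div_iff₀ hs]
  have h5 := pow_le_pow_left₀ (by positivity) h1 2
  rwa [mul_pow, h3, sq_abs] at h5

theorem cell_sum (R : Finset ℤ) (L : ℕ) {s : ℝ} (hs : 0 < s) (hL : Real.sqrt s ≤ L) (W : ℝ) :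
    ∑ j ∈ R, Real.exp (-(3 / 16) * ((j : ℝ) * L - W) ^ 2 / s) ≤ 8 := by
  have hq : 0 < Real.sqrt s := Real.sqrt_pos.2 hs
  have hL0 : (0 : ℝ) < L := hq.trans_le hL
  have hsep : ∀ v v' : ℤ, v ≠ v' → Real.sqrt s ≤ |(v : ℝ) * L - (v' : ℝ) * L| := by
    intro v v' hne
    have h1 : (1 : ℝ) ≤ |(v : ℝ) - v'| := by
      have h2 : (1 : ℤ) ≤ |v - v'| := Int.one_le_abs (sub_ne_zero.2 hne)
      exact_mod_cast h2
    rw [← sub_mul, abs_mul, abs_of_pos hL0]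
    nlinarith
  have hside : ∀ k : ℕ, ∀ P : ℤ → Prop, ∀ _ : DecidablePred P,
      (∀ v v' : ℤ, P v → P v' → |(v : ℝ) * L - (v' : ℝ) * L| =
        |(|(v : ℝ) * L - W| - |(v' : ℝ) * L - W|)|) →
      ((R.filter (fun v : ℤ => ⌊|(v : ℝ) * L - W| / Real.sqrt s⌋₊ = k)).filter P).card ≤ 1 := by
    intro k P _ hP
    rw [card_le_one]
    intro v hv v' hv'
    rw [mem_filter, mem_filter] at hv hv'
    by_contra hne
    have h1 := hsep v v' hne
    obtain ⟨h3, h4⟩ := cellS_bin hs ((v : ℝ) * L - W)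
    obtain ⟨h5, h6⟩ := cellS_bin hs ((v' : ℝ) * L - W)
    rw [hv.1.2] at h3 h4
    rw [hv'.1.2] at h5 h6
    rw [hP v v' hv.2 hv'.2] at h1
    have h7 : |(|(v : ℝ) * L - W| - |(v' : ℝ) * L - W|)| < Real.sqrt s := by
      rw [abs_lt]
      constructor <;> linarith
    linarith
  have hcard : ∀ k : ℕ,
      ((R.filter (fun v : ℤ => ⌊|(v : ℝ) * L - W| / Real.sqrt s⌋₊ = k)).card : ℝ) ≤ 2 := by
    intro k
    have e := Finset.card_filter_add_card_filter_not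
      (s := R.filter (fun v : ℤ => ⌊|(v : ℝ) * L - W| / Real.sqrt s⌋₊ = k))
      (fun v : ℤ => W ≤ (v : ℝ) * L)
    have e1 := hside k (fun v : ℤ => W ≤ (v : ℝ) * L) inferInstance (by
      intro v v' h h'
      rw [abs_of_nonneg (sub_nonneg.2 h), abs_of_nonneg (sub_nonneg.2 h')]
      congr 1
      ring)
    have e2 := hside k (fun v : ℤ => ¬ W ≤ (v : ℝ) * L) inferInstance (by
      intro v v' h h'
      rw [abs_of_nonpos (by linarith : (v : ℝ) * L - W ≤ 0),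
        abs_of_nonpos (by linarith : (v' : ℝ) * L - W ≤ 0), ← abs_neg]
      congr 1
      ring)
    have : (R.filter (fun v : ℤ => ⌊|(v : ℝ) * L - W| / Real.sqrt s⌋₊ = k)).card ≤ 2 := by omega
    exact_mod_cast this
  have h := cellS_bins R (fun v : ℤ => ⌊|(v : ℝ) * L - W| / Real.sqrt s⌋₊)
    (fun v : ℤ => Real.exp (-(3 / 16) * ((v : ℝ) * L - W) ^ 2 / s))
    (fun k => 4 * (1 / 2) ^ (k + 1))
    (c := 2) (G := 4) (fun k => by positivity) cellS_geom (by norm_num) hcard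
    (fun v _ => by
      refine le_trans ?_ (cellS_exp _)
      apply Real.exp_le_exp.2
      have h1 := cellS_sq hs ((v : ℝ) * L - W)
      rw [mul_div_assoc]
      linarith)
  refine h.trans ?_
  norm_num

theorem ksel (R : Finset ℤ) (Aj : ℤ → ℝ) (h0 : ∀ j, 0 ≤ Aj j) {G : ℝ} (hG : 0 < G) (K₀ : ℕ) :
    ∃ Kf : ℤ → ℕ, (∀ j, Real.exp 524 / 9 ^ Kf j * Aj j ≤ G) ∧
      ∑ j ∈ R, ((Kf j : ℝ) + 1) ≤
        (K₀ + 1) * R.card + Real.exp 524 / (9 ^ K₀ * G) * ∑ j ∈ R, Aj j := by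
  classical
  obtain ⟨E, hE⟩ : ∃ E : ℝ, E = Real.exp 524 := ⟨_, rfl⟩
  have hE0 : 0 < E := by rw [hE]; exact Real.exp_pos _
  rw [← hE]
  have hex : ∀ j : ℤ, ∃ K : ℕ, E * Aj j ≤ 9 ^ K * G := by
    intro j
    obtain ⟨K, hK⟩ := pow_unbounded_of_one_lt (E * Aj j / G) (show (1 : ℝ) < 9 by norm_num)
    refine ⟨K, ?_⟩
    rw [div_lt_iff₀ hG] at hK
    exact hK.le
  refine ⟨fun j => Nat.find (hex j), fun j => ?_, ?_⟩
  · have h1 := Nat.find_spec (hex j)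
    have h2 : (0 : ℝ) < 9 ^ Nat.find (hex j) := by positivity
    rw [div_mul_eq_mul_div, div_le_iff₀ h2, mul_comm G]
    exact h1
  · have hkey : ∀ j : ℤ, ((Nat.find (hex j) : ℕ) : ℝ) + 1 ≤ (K₀ + 1) + E / (9 ^ K₀ * G) * Aj j := by
      intro j
      have hp : (0 : ℝ) < 9 ^ K₀ * G := by positivity
      rcases le_or_gt (Nat.find (hex j)) K₀ with h | h
      · have h1 : ((Nat.find (hex j) : ℕ) : ℝ) ≤ K₀ := by exact_mod_cast h
        have h2 : 0 ≤ E / (9 ^ K₀ * G) * Aj j := mul_nonneg (by positivity) (h0 j)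
        linarith
      · obtain ⟨t, ht⟩ := Nat.exists_eq_add_of_lt h
        have h1 := Nat.find_min (hex j) (show K₀ + t < Nat.find (hex j) by omega)
        rw [not_le] at h1
        have h2 : t + 1 ≤ 9 ^ t := Nat.lt_pow_self (by norm_num)
        have h3 : ((t : ℝ) + 1) ≤ 9 ^ t := by exact_mod_cast h2
        have h4 : ((Nat.find (hex j) : ℕ) : ℝ) = K₀ + t + 1 := by
          rw [ht]; push_cast; ring
        have h5 : (t : ℝ) + 1 ≤ E / (9 ^ K₀ * G) * Aj j := by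
          rw [div_mul_eq_mul_div, le_div_iff₀ hp]
          refine le_trans ?_ h1.le
          rw [pow_add]
          calc ((t : ℝ) + 1) * (9 ^ K₀ * G) ≤ 9 ^ t * (9 ^ K₀ * G) :=
                mul_le_mul_of_nonneg_right h3 hp.le
            _ = 9 ^ K₀ * 9 ^ t * G := by ring
        rw [h4]
        linarith
    calc ∑ j ∈ R, (((Nat.find (hex j) : ℕ) : ℝ) + 1)
        ≤ ∑ j ∈ R, (((K₀ : ℝ) + 1) + E / (9 ^ K₀ * G) * Aj j) :=
          Finset.sum_le_sum fun j _ => hkey j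
      _ = (K₀ + 1) * R.card + E / (9 ^ K₀ * G) * ∑ j ∈ R, Aj j := by
          rw [Finset.sum_add_distrib, Finset.sum_const, nsmul_eq_mul, ← Finset.mul_sum]
          ring

end Pool.Agent.Lib.HAP
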