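import Pool.Agent.Lib.HAP.B.Scale

/-!
MODULE B.CountS: few cells have a small scale.

PROOF.  Split the cells `k < 2^A` in those with `sc k = A` (sum at most `2^A 4^(-A) = (1/2)^A`) and those
with `a := sc k < A`.  For the latter `sc_near` gives `b ≤ a + 1` (so `b ≤ A`) and `m' ∈ S b` (`hS`) with
`m P < (m'+1) 2^b + 2 P` and `m' 2^b < (m+3) P`, `P = 2^(a+1)`, `m = k/P`.  For fixed `(b, m')` and `a ≥ b-1`
write `u = m' 2^b`, `u₁ = u / P`; as `2^b ≤ P`: `m P < u + 3 P`, so `m ≤ u₁ + 3`, and `u < (m+3) P`, so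
`m + 3 ≥ u₁ + 1`: at most 6 values of `m`, hence at most `6 P = 12 * 2^a` cells `k`, and their contribution
is at most `12 * 2^a * 4^(-a) = 12 (1/2)^a`.  Sum over `a ≥ b - 1`: at most `24 (1/2)^(b-1) = 48 (1/2)^b`.
(Formal: bound the sum over `k` by the sum over `b ∈ Icc 1 A`, `m' ∈ S b`, `a ∈ range A` with `b ≤ a + 1`,
and `k` in the set of those cells, `Finset.sum_le_sum_of_subset` after `Finset.sum_biUnion`-type bound
`∑_{k ∈ ⋃ T_i} f k ≤ ∑_i ∑_{k ∈ T_i} f k` for `f ≥ 0`.)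
-/

set_option autoImplicit false

namespace Pool.Agent.Lib.HAP

open Finset

private theorem cs_sub (P u m k : ℕ) (hP : 0 < P) (hm : m = k / P) (h1 : m * P < u + 3 * P)
    (h2 : u < (m + 3) * P) : k ∈ Finset.Ico ((u / P - 2) * P) ((u / P + 4) * P) := by
  have e1 : m * P ≤ k := by rw [hm]; exact Nat.div_mul_le_self k P
  have e2 : k < (m + 1) * P := by
    rw [hm]
    have := Nat.lt_div_mul_add (a := k) hP
    rw [add_mul, one_mul]
    exact this
  have e3 : u / P * P ≤ u := Nat.div_mul_le_self u P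
  have e4 : u < (u / P + 1) * P := by
    have := Nat.lt_div_mul_add (a := u) hP
    rw [add_mul, one_mul]
    exact this
  have f1 : m < u / P + 4 := by
    have h3 : m * P < (u / P + 4) * P := by nlinarith
    exact Nat.lt_of_mul_lt_mul_right h3
  have f2 : u / P < m + 3 := by
    have h3 : u / P * P < (m + 3) * P := lt_of_le_of_lt e3 h2
    exact Nat.lt_of_mul_lt_mul_right h3
  rw [Finset.mem_Ico]
  constructor
  · refine le_trans (Nat.mul_le_mul_right P ?_) e1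
    omega
  · refine lt_of_lt_of_le e2 (Nat.mul_le_mul_right P ?_)
    omega

private theorem cs_card (P u : ℕ) :
    (Finset.Ico ((u / P - 2) * P) ((u / P + 4) * P)).card ≤ 6 * P := by
  rw [Nat.card_Ico, ← Nat.sub_mul]
  refine Nat.mul_le_mul_right P ?_
  omega

private theorem cs_geom (c n : ℕ) (h : c ≤ n) :
    ∑ a ∈ Finset.Ico c n, ((1 : ℝ) / 2) ^ a = 2 * (1 / 2) ^ c - 2 * (1 / 2) ^ n := by
  induction n, h using Nat.le_induction with
  | base => simp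
  | succ n hn ih =>
    rw [Finset.sum_Ico_succ_top hn, ih, pow_succ]
    ring

private theorem cs_count (H : ℕ → ℕ → Prop) (A : ℕ) (S : ℕ → Finset ℕ)
    (hS : ∀ b m', 1 ≤ b → b ≤ A → H b m' → m' ∈ S b) (a : ℕ) (ha : a < A) :
    (((range (2 ^ A)).filter (fun k => sc H A k = a)).card : ℝ) ≤
      12 * 2 ^ a * ∑ b ∈ Icc 1 (a + 1), ((S b).card : ℝ) := by
  classical
  have h1 : (range (2 ^ A)).filter (fun k => sc H A k = a) ⊆
      (Icc 1 (a + 1)).biUnion (fun b => (S b).biUnion (fun m' =>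
        Finset.Ico ((m' * 2 ^ b / 2 ^ (a + 1) - 2) * 2 ^ (a + 1))
          ((m' * 2 ^ b / 2 ^ (a + 1) + 4) * 2 ^ (a + 1)))) := by
    intro k hk
    rw [Finset.mem_filter] at hk
    obtain ⟨_, hk⟩ := hk
    obtain ⟨b, m', hb1, hb2, hH, g1, g2⟩ := sc_near H A k (by rw [hk]; exact ha)
    rw [hk] at hb2 g1 g2
    rw [Finset.mem_biUnion]
    refine ⟨b, Finset.mem_Icc.2 ⟨hb1, hb2⟩, ?_⟩
    rw [Finset.mem_biUnion]
    refine ⟨m', hS b m' hb1 (by omega) hH, ?_⟩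
    refine cs_sub (2 ^ (a + 1)) (m' * 2 ^ b) (k / 2 ^ (a + 1)) k (by positivity) rfl ?_ g2
    have h2 : 2 ^ b ≤ 2 ^ (a + 1) := Nat.pow_le_pow_right (by norm_num) hb2
    calc k / 2 ^ (a + 1) * 2 ^ (a + 1) < (m' + 1) * 2 ^ b + 2 * 2 ^ (a + 1) := g1
      _ = m' * 2 ^ b + 2 ^ b + 2 * 2 ^ (a + 1) := by ring
      _ ≤ m' * 2 ^ b + 2 ^ (a + 1) + 2 * 2 ^ (a + 1) := by omega
      _ = m' * 2 ^ b + 3 * 2 ^ (a + 1) := by ring
  have h2 : ((range (2 ^ A)).filter (fun k => sc H A k = a)).card ≤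
      ∑ b ∈ Icc 1 (a + 1), (S b).card * (6 * 2 ^ (a + 1)) := by
    refine (Finset.card_le_card h1).trans (Finset.card_biUnion_le.trans ?_)
    refine Finset.sum_le_sum fun b _ => ?_
    refine Finset.card_biUnion_le.trans ?_
    refine (Finset.sum_le_sum fun m' _ => cs_card (2 ^ (a + 1)) (m' * 2 ^ b)).trans ?_
    rw [Finset.sum_const, smul_eq_mul]
  have h3 : (((range (2 ^ A)).filter (fun k => sc H A k = a)).card : ℝ) ≤
      ((∑ b ∈ Icc 1 (a + 1), (S b).card * (6 * 2 ^ (a + 1)) : ℕ) : ℝ) := by exact_mod_cast h2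
  refine h3.trans (le_of_eq ?_)
  push_cast
  rw [← Finset.sum_mul, pow_succ]
  ring

theorem sum_sc_le (H : ℕ → ℕ → Prop) (A : ℕ) (S : ℕ → Finset ℕ)
    (hS : ∀ b m', 1 ≤ b → b ≤ A → H b m' → m' ∈ S b) :
    ∑ k ∈ range (2 ^ A), ((1 : ℝ) / 4) ^ sc H A k ≤
      (1 / 2) ^ A + 60 * ∑ b ∈ Icc 1 A, ((S b).card : ℝ) * (1 / 2) ^ b := by
  classical
  have h0 : ∑ k ∈ range (2 ^ A), ((1 : ℝ) / 4) ^ sc H A k =
      ∑ a ∈ range (A + 1), ∑ k ∈ (range (2 ^ A)).filter (fun k => sc H A k = a),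
        ((1 : ℝ) / 4) ^ sc H A k := by
    refine (Finset.sum_fiberwise_of_maps_to (t := range (A + 1)) (g := fun k => sc H A k)
      (fun k _ => ?_) _).symm
    rw [Finset.mem_range]
    exact Nat.lt_succ_of_le (sc_le H A k)
  have h1 : ∀ a, ∑ k ∈ (range (2 ^ A)).filter (fun k => sc H A k = a),
      ((1 : ℝ) / 4) ^ sc H A k =
      (((range (2 ^ A)).filter (fun k => sc H A k = a)).card : ℝ) * (1 / 4) ^ a := by
    intro a
    rw [Finset.sum_congr rfl (g := fun _ => ((1 : ℝ) / 4) ^ a)]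
    · rw [Finset.sum_const, nsmul_eq_mul]
    · intro k hk
      rw [(Finset.mem_filter.1 hk).2]
  rw [h0, Finset.sum_range_succ]
  simp only [h1]
  have h2 : (((range (2 ^ A)).filter (fun k => sc H A k = A)).card : ℝ) * (1 / 4) ^ A ≤
      (1 / 2) ^ A := by
    have e1 : (((range (2 ^ A)).filter (fun k => sc H A k = A)).card : ℝ) ≤ 2 ^ A := by
      have := Finset.card_filter_le (range (2 ^ A)) (fun k => sc H A k = A)
      rw [Finset.card_range] at this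
      exact_mod_cast this
    refine (mul_le_mul_of_nonneg_right e1 (by positivity)).trans (le_of_eq ?_)
    rw [← mul_pow]
    norm_num
  have h3 : ∑ a ∈ range A, (((range (2 ^ A)).filter (fun k => sc H A k = a)).card : ℝ) *
      (1 / 4) ^ a ≤ ∑ a ∈ range A, ∑ b ∈ Icc 1 (a + 1), 12 * ((S b).card : ℝ) * (1 / 2) ^ a := by
    refine Finset.sum_le_sum fun a ha => ?_
    have e1 := cs_count H A S hS a (Finset.mem_range.1 ha)
    refine (mul_le_mul_of_nonneg_right e1 (by positivity)).trans (le_of_eq ?_)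
    rw [← Finset.sum_mul, ← Finset.mul_sum]
    have e2 : (2 : ℝ) ^ a * (1 / 4) ^ a = (1 / 2) ^ a := by
      rw [← mul_pow]
      norm_num
    rw [← e2]
    ring
  have h4 : ∑ a ∈ range A, ∑ b ∈ Icc 1 (a + 1), 12 * ((S b).card : ℝ) * (1 / 2) ^ a =
      ∑ b ∈ Icc 1 A, ∑ a ∈ Finset.Ico (b - 1) A, 12 * ((S b).card : ℝ) * (1 / 2) ^ a := by
    refine Finset.sum_comm' fun a b => ?_
    simp only [Finset.mem_range, Finset.mem_Icc, Finset.mem_Ico]
    omega
  have h5 : ∑ b ∈ Icc 1 A, ∑ a ∈ Finset.Ico (b - 1) A, 12 * ((S b).card : ℝ) * (1 / 2) ^ a ≤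
      60 * ∑ b ∈ Icc 1 A, ((S b).card : ℝ) * (1 / 2) ^ b := by
    rw [Finset.mul_sum]
    refine Finset.sum_le_sum fun b hb => ?_
    rw [Finset.mem_Icc] at hb
    rw [← Finset.mul_sum, cs_geom (b - 1) A (by omega)]
    obtain ⟨c, rfl⟩ : ∃ c, b = c + 1 := ⟨b - 1, by omega⟩
    have e1 : (0 : ℝ) ≤ (1 / 2) ^ A := by positivity
    have e2 : (0 : ℝ) ≤ (1 / 2) ^ c := by positivity
    have e3 : (0 : ℝ) ≤ ((S (c + 1)).card : ℝ) := Nat.cast_nonneg _
    rw [Nat.add_sub_cancel, pow_succ]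
    have e4 : (0 : ℝ) ≤ ((S (c + 1)).card : ℝ) * (1 / 2) ^ c := mul_nonneg e3 e2
    have e5 : (0 : ℝ) ≤ ((S (c + 1)).card : ℝ) * (1 / 2) ^ A := mul_nonneg e3 e1
    nlinarith
  linarith [h3, h4, h5, h2]

end Pool.Agent.Lib.HAP
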