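import Pool.Agent.Lib.HAP.B.DefsB

/-!
MODULE B.UnitU: partition of unity for dyadic intervals of variable length.

DATA.  Cells `k < 2^A` (the positions `k w ≤ q < (k+1) w`), a scale `f k ≤ A` for each cell, constant on the
dyadic interval of length `2^(f k)` which contains `k` (`hconst`), neighbouring scales differ by at most one
(`hgr`).

PROOF.  Break points `k_0 = 0`, `k_(i+1) = k_i + 2^(f (k_i))`.  By induction `2^(f (k_i))` divides `k_i`, `f`
is constant on `[k_i, k_(i+1))`, and `k_n = 2^A` for some `n ≥ 1`: (if `2^(f k_i)` divides `k_i < 2^A`, `f`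
is constant on `[k_i, k_(i+1))` by `hconst`, `k_(i+1) ≤ 2^A` because `f ≤ A`; if `k_(i+1) < 2^A` were not
divisible by `2^c`, `c = f (k_(i+1))`, then `k_(i+1) - 1` would be in the same dyadic interval of length
`2^c`, so `f (k_(i+1) - 1) = c` by `hconst`, i.e. `f (k_i) = c`, but then `k_(i+1) = k_i + 2^c` is divisible by
`2^c`).  Put `x_i = k_i w`, `ℓ_i = 2^(f k_i) w = x_(i+1) - x_i`.
`θ_i q = cos (π/2 * (q - x_i)/ℓ_i)` for `x_i ≤ q ≤ x_(i+1)` (`i < n`), `cos (π/2 * (x_i - q)/ℓ_(i-1))` for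
`x_(i-1) ≤ q ≤ x_i` (`i ≥ 1`), `0` otherwise; `i = 0, .., n`.  `∑_i (θ_i q)^2 = 1` for `0 ≤ q ≤ N < 2^A w`
(on `[x_i, x_(i+1))` only `θ_i` and `θ_(i+1)`: `cos^2 + sin^2`), `|θ_i| ≤ 1`, `θ_i q ≠ 0` only for
`x_(i-1) < q < x_(i+1)`, `|θ_i (q+1) - θ_i q| ≤ π/(2 ℓ)` with `ℓ = ℓ_i` resp. `ℓ_(i-1)`, so
`dirE θ_i ≤ (π^2/4)(1/ℓ_(i-1) + 1/ℓ_i) ≤ (π^2/4) * 3/ℓ ≤ 8/ℓ`, `ℓ = max(ℓ_(i-1), ℓ_i)` (ratio at most two by
`hgr`; `π^2 < 10`).  Let `k` be a cell of the larger one of the two intervals; the support of `θ_i` is in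
this interval and its two neighbours of the same length.  `hloc`: `∑ d q (θ_i q)^2 ≤ C/ℓ + e (θ_i 0)^2`.
Sum over `i`: `∑ d q ≤ ∑_{i<n} C/ℓ_i + C/ℓ_(n-1) + e ≤ 2 C ∑_{i<n} 1/ℓ_i + e`, and
`∑_{i<n} 1/ℓ_i = (1/w) ∑_{i<n} 2^(-f k_i) = (1/w) ∑_{k < 2^A} 4^(-f k)` (the interval number `i` has
`2^(f k_i)` cells).
-/

set_option autoImplicit false

namespace Pool.Agent.Lib.HAP

open Finset

private noncomputable def UnitU_G (m s l : ℕ) (u : ℝ) : ℝ :=
  (if m = s then Real.cos (Real.pi / 2 * u) else 0) +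
    (if m = s + l then Real.sin (Real.pi / 2 * u) else 0)

private theorem UnitU_G_s {m s l : ℕ} (hl : 1 ≤ l) (h : m = s) (u : ℝ) :
    UnitU_G m s l u = Real.cos (Real.pi / 2 * u) := by
  unfold UnitU_G
  rw [if_pos h, if_neg (by omega), add_zero]

private theorem UnitU_G_e {m s l : ℕ} (hl : 1 ≤ l) (h : m = s + l) (u : ℝ) :
    UnitU_G m s l u = Real.sin (Real.pi / 2 * u) := by
  unfold UnitU_G
  rw [if_neg (by omega), if_pos h, zero_add]

private theorem UnitU_G_o {m s l : ℕ} (h : m ≠ s) (h' : m ≠ s + l) (u : ℝ) :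
    UnitU_G m s l u = 0 := by
  unfold UnitU_G
  rw [if_neg h, if_neg h', add_zero]

private theorem UnitU_G_le {m s l : ℕ} (hl : 1 ≤ l) (u : ℝ) : |UnitU_G m s l u| ≤ 1 := by
  by_cases h : m = s
  · rw [UnitU_G_s hl h]; exact Real.abs_cos_le_one _
  · by_cases h' : m = s + l
    · rw [UnitU_G_e hl h']; exact Real.abs_sin_le_one _
    · rw [UnitU_G_o h h', abs_zero]; exact zero_le_one

private theorem UnitU_G_sum {s l M : ℕ} (hl : 1 ≤ l) (hM : s + l < M) (u : ℝ) :
    ∑ m ∈ range M, (UnitU_G m s l u) ^ 2 = 1 := by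
  have h1 : ∀ m ∈ range M, (UnitU_G m s l u) ^ 2 =
      (if m = s then Real.cos (Real.pi / 2 * u) ^ 2 else 0) +
        (if m = s + l then Real.sin (Real.pi / 2 * u) ^ 2 else 0) := by
    intro m _
    by_cases h : m = s
    · rw [UnitU_G_s hl h, if_pos h, if_neg (by omega), add_zero]
    · by_cases h' : m = s + l
      · rw [UnitU_G_e hl h', if_neg h, if_pos h', zero_add]
      · rw [UnitU_G_o h h', if_neg h, if_neg h']
        ring
  rw [Finset.sum_congr rfl h1, Finset.sum_add_distrib, Finset.sum_ite_eq', Finset.sum_ite_eq',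
    if_pos (mem_range.2 (by omega)), if_pos (mem_range.2 hM)]
  exact Real.cos_sq_add_sin_sq _

private theorem UnitU_lip {g : ℝ → ℝ} (hg : LipschitzWith 1 g) (u u' : ℝ) :
    (g (Real.pi / 2 * u') - g (Real.pi / 2 * u)) ^ 2 ≤ (Real.pi / 2 * (u' - u)) ^ 2 := by
  have h1 := hg.dist_le_mul (Real.pi / 2 * u') (Real.pi / 2 * u)
  rw [Real.dist_eq, Real.dist_eq, NNReal.coe_one, one_mul, ← mul_sub] at h1
  exact sq_le_sq.2 h1

private theorem UnitU_G_diff {m s l : ℕ} (hl : 1 ≤ l) (u u' : ℝ) :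
    (UnitU_G m s l u' - UnitU_G m s l u) ^ 2 ≤
      (if m = s then (Real.pi / 2 * (u' - u)) ^ 2 else 0) +
        (if m = s + l then (Real.pi / 2 * (u' - u)) ^ 2 else 0) := by
  by_cases h : m = s
  · rw [UnitU_G_s hl h, UnitU_G_s hl h, if_pos h, if_neg (by omega), add_zero]
    have := UnitU_lip Real.lipschitzWith_cos u u'
    exact this
  · by_cases h' : m = s + l
    · rw [UnitU_G_e hl h', UnitU_G_e hl h', if_neg h, if_pos h', zero_add]
      exact UnitU_lip Real.lipschitzWith_sin u u'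
    · rw [UnitU_G_o h h', UnitU_G_o h h', if_neg h, if_neg h']
      norm_num

private theorem UnitU_count {N a T : ℕ} (P : Fin N → Prop) [DecidablePred P] {κ : ℝ} (hκ : 0 ≤ κ)
    (h : ∀ i, P i → a ≤ i.val ∧ i.val < a + T) :
    ∑ i : Fin N, (if P i then κ else 0) ≤ T * κ := by
  rw [← Finset.sum_filter, Finset.sum_const, nsmul_eq_mul]
  refine mul_le_mul_of_nonneg_right ?_ hκ
  have h1 : ((univ.filter P).image fun i : Fin N => i.val) ⊆ Ico a (a + T) := by
    intro x hx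
    obtain ⟨i, hi, rfl⟩ := mem_image.1 hx
    exact mem_Ico.2 (h i (mem_filter.1 hi).2)
  have h2 := card_le_card h1
  rw [card_image_of_injective _ Fin.val_injective, Nat.card_Ico] at h2
  exact_mod_cast (by omega : (univ.filter P).card ≤ T)

/-! the dyadic intervals -/

private def UnitU_st (f : ℕ → ℕ) (k : ℕ) : ℕ := k / 2 ^ f k * 2 ^ f k

section

variable {f : ℕ → ℕ} (hconst : ∀ k k', k' / 2 ^ f k = k / 2 ^ f k → f k' = f k)

private theorem UnitU_le (f : ℕ → ℕ) (k : ℕ) : UnitU_st f k ≤ k := Nat.div_mul_le_self _ _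

private theorem UnitU_lt (f : ℕ → ℕ) (k : ℕ) : k < UnitU_st f k + 2 ^ f k :=
  Nat.lt_div_mul_add (pow_pos two_pos _)

include hconst

private theorem UnitU_mem {k j : ℕ} (h : UnitU_st f k ≤ j) (h' : j < UnitU_st f k + 2 ^ f k) :
    f j = f k ∧ UnitU_st f j = UnitU_st f k := by
  have hpos : 0 < 2 ^ f k := pow_pos two_pos _
  have h1 : j / 2 ^ f k = k / 2 ^ f k := by
    unfold UnitU_st at h h'
    refine Nat.div_eq_of_lt_le h ?_
    rw [add_mul, one_mul]
    exact h'
  have h2 := hconst k j h1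
  refine ⟨h2, ?_⟩
  unfold UnitU_st
  rw [h2, h1]

private theorem UnitU_fst (k : ℕ) : f (UnitU_st f k) = f k :=
  (UnitU_mem hconst le_rfl (by have := pow_pos (two_pos (α := ℕ)) (f k); omega)).1

private theorem UnitU_stst (k : ℕ) : UnitU_st f (UnitU_st f k) = UnitU_st f k :=
  (UnitU_mem hconst le_rfl (by have := pow_pos (two_pos (α := ℕ)) (f k); omega)).2

/-- the end of a dyadic interval is the start of the next one -/
private theorem UnitU_end (k : ℕ) : UnitU_st f (UnitU_st f k + 2 ^ f k) =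
    UnitU_st f k + 2 ^ f k := by
  have hpos : 0 < 2 ^ f k := pow_pos two_pos _
  set k' := UnitU_st f k + 2 ^ f k with hk'
  have hp' : 0 < 2 ^ f k' := pow_pos two_pos _
  by_contra hne
  have h1 : UnitU_st f k' < k' := lt_of_le_of_ne (UnitU_le f k') hne
  have h2 : f (k' - 1) = f k' :=
    (UnitU_mem hconst (k := k') (j := k' - 1) (by omega)
      (by have := UnitU_lt f k'; omega)).1
  have h3 : f (k' - 1) = f k :=
    (UnitU_mem hconst (k := k) (j := k' - 1) (by omega) (by omega)).1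
  apply hne
  have h4 : f k' = f k := by rw [← h2, h3]
  unfold UnitU_st
  rw [h4, hk']
  unfold UnitU_st
  rw [show k / 2 ^ f k * 2 ^ f k + 2 ^ f k = (k / 2 ^ f k + 1) * 2 ^ f k by ring,
    Nat.mul_div_cancel _ hpos]

omit hconst in
private theorem UnitU_top {A : ℕ} (hA : ∀ k, f k ≤ A) {k : ℕ} (hk : k < 2 ^ A) :
    UnitU_st f k + 2 ^ f k ≤ 2 ^ A := by
  obtain ⟨c, hc⟩ := Nat.exists_eq_add_of_le (hA k)
  have hpos : 0 < 2 ^ f k := pow_pos two_pos _
  unfold UnitU_st
  have h1 : k / 2 ^ f k < 2 ^ c := by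
    rw [Nat.div_lt_iff_lt_mul hpos, ← pow_add, add_comm c, ← hc]
    exact hk
  calc k / 2 ^ f k * 2 ^ f k + 2 ^ f k = (k / 2 ^ f k + 1) * 2 ^ f k := by ring
    _ ≤ 2 ^ c * 2 ^ f k := Nat.mul_le_mul_right _ h1
    _ = 2 ^ A := by rw [← pow_add, add_comm c, ← hc]

end

/-- the partition of unity -/
private noncomputable def UnitU_th (f : ℕ → ℕ) (w m q : ℕ) : ℝ :=
  UnitU_G m (UnitU_st f (q / w)) (2 ^ f (q / w))
    (((q : ℝ) - UnitU_st f (q / w) * w) / (2 ^ f (q / w) * w))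

section

variable {f : ℕ → ℕ} (hconst : ∀ k k', k' / 2 ^ f k = k / 2 ^ f k → f k' = f k)

private theorem UnitU_one_le (n : ℕ) : 1 ≤ 2 ^ n := Nat.one_le_two_pow

include hconst

private theorem UnitU_step {w : ℕ} (hw : 1 ≤ w) (m q : ℕ) : UnitU_th f w m (q + 1) =
    UnitU_G m (UnitU_st f (q / w)) (2 ^ f (q / w))
      (((q : ℝ) + 1 - UnitU_st f (q / w) * w) / (2 ^ f (q / w) * w)) := by
  set k := q / w with hk
  have hkq : k * w ≤ q := Nat.div_mul_le_self q w
  have hkq' : q < k * w + w := Nat.lt_div_mul_add hw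
  have hle := UnitU_le f k
  have hlt := UnitU_lt f k
  have hwR : (w : ℝ) ≠ 0 := by
    have : (0 : ℝ) < w := by exact_mod_cast hw
    exact this.ne'
  by_cases hcase : (q + 1) / w < UnitU_st f k + 2 ^ f k
  · have h1 : UnitU_st f k ≤ (q + 1) / w := le_trans hle (Nat.div_le_div_right (Nat.le_succ q))
    obtain ⟨h2, h3⟩ := UnitU_mem hconst h1 hcase
    unfold UnitU_th
    rw [h2, h3]
    push_cast
    rfl
  · push Not at hcase
    have h1 : (q + 1) / w ≤ k + 1 := by
      rw [Nat.div_le_iff_le_mul_add_pred hw]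
      calc q + 1 ≤ k * w + w := hkq'
        _ = w * (k + 1) := by ring
        _ ≤ w * (k + 1) + (w - 1) := Nat.le_add_right _ _
    have h2 : (q + 1) / w = k + 1 := by omega
    have h3 : UnitU_st f k + 2 ^ f k = k + 1 := by omega
    have h4 : q + 1 = (k + 1) * w := by
      have h5 : (k + 1) * w ≤ q + 1 := by
        rw [← h2]; exact Nat.div_mul_le_self _ _
      have h6 : (k + 1) * w = k * w + w := by ring
      omega
    have h7 := UnitU_end hconst k
    rw [h3] at h7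
    have h8 : ((q : ℝ) + 1) = ((k : ℝ) + 1) * w := by exact_mod_cast h4
    have h9 : ((UnitU_st f k : ℕ) : ℝ) + 2 ^ f k = k + 1 := by exact_mod_cast h3
    have hpR : (2 : ℝ) ^ f k ≠ 0 := pow_ne_zero _ two_ne_zero
    have h10 : ((q : ℝ) + 1 - UnitU_st f k * w) / (2 ^ f k * w) = 1 := by
      rw [div_eq_one_iff_eq (mul_ne_zero hpR hwR), h8, ← h9]
      ring
    have h11 : (((q + 1 : ℕ) : ℝ) - UnitU_st f ((q + 1) / w) * w) /
        (2 ^ f ((q + 1) / w) * w) = 0 := by
      rw [h2, h7]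
      push_cast
      rw [h8, sub_self, zero_div]
    rw [h10]
    unfold UnitU_th
    rw [h11, h2, h7]
    unfold UnitU_G
    rw [mul_zero, Real.cos_zero, Real.sin_zero, mul_one, Real.cos_pi_div_two,
      Real.sin_pi_div_two, h3]
    simp

private theorem UnitU_dirE {N w : ℕ} (hw : 1 ≤ w) (m : ℕ) :
    dirE (fun q : Fin (N + 1) => UnitU_th f w m q.val) ≤
      (Real.pi / 2) ^ 2 * (1 / (2 ^ f m * w)) +
        (if m = 0 then 0 else (Real.pi / 2) ^ 2 * (1 / (2 ^ f (m - 1) * w))) := by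
  have hwR : (0 : ℝ) < w := by exact_mod_cast hw
  have hL : ∀ n : ℕ, (0 : ℝ) < 2 ^ n * w := fun n => mul_pos (pow_pos two_pos _) hwR
  unfold dirE
  have h1 : ∀ i : Fin N,
      (UnitU_th f w m (i.succ : Fin (N + 1)).val -
        UnitU_th f w m (i.castSucc : Fin (N + 1)).val) ^ 2 ≤
      (if m = UnitU_st f (i.val / w) then (Real.pi / 2 * (1 / (2 ^ f m * w))) ^ 2 else 0) +
        (if m = UnitU_st f (i.val / w) + 2 ^ f (i.val / w) then
          (Real.pi / 2 * (1 / (2 ^ f (m - 1) * w))) ^ 2 else 0) := by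
    intro i
    rw [Fin.val_succ, Fin.val_castSucc, UnitU_step hconst hw, UnitU_th]
    refine (UnitU_G_diff (UnitU_one_le _) _ _).trans (le_of_eq ?_)
    have h2 : ((i.val : ℝ) + 1 - UnitU_st f (i.val / w) * w) / (2 ^ f (i.val / w) * w) -
        ((i.val : ℝ) - UnitU_st f (i.val / w) * w) / (2 ^ f (i.val / w) * w) =
        1 / (2 ^ f (i.val / w) * w) := by
      rw [← sub_div]; congr 1; ring
    rw [h2]
    congr 1
    · by_cases h : m = UnitU_st f (i.val / w)
      · rw [if_pos h, if_pos h, h, UnitU_fst hconst]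
      · rw [if_neg h, if_neg h]
    · by_cases h : m = UnitU_st f (i.val / w) + 2 ^ f (i.val / w)
      · have hp := UnitU_one_le (f (i.val / w))
        have h3 : f (m - 1) = f (i.val / w) :=
          (UnitU_mem hconst (k := i.val / w) (j := m - 1) (by omega) (by omega)).1
        rw [if_pos h, if_pos h, h3]
      · rw [if_neg h, if_neg h]
  refine (Finset.sum_le_sum fun i _ => h1 i).trans ?_
  rw [Finset.sum_add_distrib]
  have hblk : ∀ i : Fin N, i.val / w * w ≤ i.val ∧ i.val < i.val / w * w + w := fun i =>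
    ⟨Nat.div_mul_le_self _ _, Nat.lt_div_mul_add hw⟩
  refine add_le_add ?_ ?_
  · refine (UnitU_count (a := m * w) (T := 2 ^ f m * w)
      (fun i : Fin N => m = UnitU_st f (i.val / w)) (sq_nonneg _) ?_).trans (le_of_eq ?_)
    · intro i hi
      have h3 := UnitU_le f (i.val / w)
      have h4 := UnitU_lt f (i.val / w)
      have h5 : f m = f (i.val / w) := by rw [hi, UnitU_fst hconst]
      rw [← hi] at h3 h4
      rw [← h5] at h4
      obtain ⟨h6, h7⟩ := hblk i
      constructor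
      · exact (Nat.mul_le_mul_right w h3).trans h6
      · have h8 : (i.val / w + 1) * w ≤ (m + 2 ^ f m) * w := Nat.mul_le_mul_right w h4
        rw [add_mul, one_mul, add_mul] at h8
        omega
    · have := (hL (f m)).ne'
      push_cast
      field_simp
  · by_cases hm : m = 0
    · rw [if_pos hm]
      refine le_of_eq (Finset.sum_eq_zero fun i _ => ?_)
      rw [if_neg]
      have := UnitU_one_le (f (i.val / w))
      omega
    · rw [if_neg hm]
      refine (UnitU_count (a := (m - 2 ^ f (m - 1)) * w) (T := 2 ^ f (m - 1) * w)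
        (fun i : Fin N => m = UnitU_st f (i.val / w) + 2 ^ f (i.val / w)) (sq_nonneg _)
        ?_).trans (le_of_eq ?_)
      · intro i hi
        have hp := UnitU_one_le (f (i.val / w))
        have h5 : f (m - 1) = f (i.val / w) :=
          (UnitU_mem hconst (k := i.val / w) (j := m - 1) (by omega) (by omega)).1
        have h3 := UnitU_le f (i.val / w)
        have h4 := UnitU_lt f (i.val / w)
        rw [h5]
        have h9 : m - 2 ^ f (i.val / w) = UnitU_st f (i.val / w) := by omega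
        rw [h9, ← add_mul, ← hi]
        obtain ⟨h6, h7⟩ := hblk i
        constructor
        · exact (Nat.mul_le_mul_right w h3).trans h6
        · have h8 : (i.val / w + 1) * w ≤ m * w := Nat.mul_le_mul_right w (by omega)
          rw [add_mul, one_mul] at h8
          omega
      · have := (hL (f (m - 1))).ne'
        push_cast
        field_simp

/-- the support of `θ m` -/
private theorem UnitU_supp {w : ℕ} (hw : 1 ≤ w) {m q : ℕ} (h : UnitU_th f w m q ≠ 0) :
    UnitU_st f m = m ∧ (m * w ≤ q ∧ q < m * w + 2 ^ f m * w ∨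
      1 ≤ m ∧ m * w ≤ q + 2 ^ f (m - 1) * w ∧ q < m * w ∧
        UnitU_st f (m - 1) + 2 ^ f (m - 1) = m) := by
  have h6 : q / w * w ≤ q := Nat.div_mul_le_self _ _
  have h7 : q < q / w * w + w := Nat.lt_div_mul_add hw
  have h3 := UnitU_le f (q / w)
  have h4 := UnitU_lt f (q / w)
  have hp := UnitU_one_le (f (q / w))
  by_cases hs : m = UnitU_st f (q / w)
  · have h5 : f m = f (q / w) := by rw [hs, UnitU_fst hconst]
    refine ⟨by rw [hs, UnitU_stst hconst], Or.inl ⟨?_, ?_⟩⟩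
    · rw [hs]
      exact (Nat.mul_le_mul_right w h3).trans h6
    · rw [h5, hs]
      have h8 : (q / w + 1) * w ≤ (UnitU_st f (q / w) + 2 ^ f (q / w)) * w :=
        Nat.mul_le_mul_right w h4
      rw [add_mul, one_mul, add_mul] at h8
      omega
  · by_cases he : m = UnitU_st f (q / w) + 2 ^ f (q / w)
    · have h5 := UnitU_mem hconst (k := q / w) (j := m - 1) (by omega) (by omega)
      refine ⟨by rw [he, UnitU_end hconst], Or.inr ⟨by omega, ?_, ?_, ?_⟩⟩
      · rw [h5.1, he, add_mul]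
        have := (Nat.mul_le_mul_right w h3).trans h6
        omega
      · have h8 : (q / w + 1) * w ≤ m * w := Nat.mul_le_mul_right w (by omega)
        rw [add_mul, one_mul] at h8
        omega
      · rw [h5.1, h5.2, ← he]
    · exact absurd (UnitU_G_o hs he _) h

end

private theorem UnitU_num : (Real.pi / 2) ^ 2 * 3 ≤ 8 := by
  have h1 := Real.pi_lt_d2
  have h2 := Real.pi_pos
  nlinarith

/-- the local bound -/
private theorem UnitU_loc {N w : ℕ} (hw : 1 ≤ w) {f : ℕ → ℕ}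
    (hconst : ∀ k k', k' / 2 ^ f k = k / 2 ^ f k → f k' = f k)
    (hgr : ∀ k, f (k + 1) ≤ f k + 1 ∧ f k ≤ f (k + 1) + 1) {e C : ℝ} (hC : 0 ≤ C)
    (d : Fin (N + 1) → ℝ)
    (hloc : ∀ k, ∀ ψ : Fin (N + 1) → ℝ, (∀ q, |ψ q| ≤ 1) →
      (∀ q, ψ q ≠ 0 → k / 2 ^ f k * (2 ^ f k * w) ≤ q.val + 2 ^ f k * w ∧
        q.val < (k / 2 ^ f k + 2) * (2 ^ f k * w)) →
      dirE ψ ≤ 8 / (2 ^ f k * w) → ∑ q, d q * (ψ q) ^ 2 ≤ C / (2 ^ f k * w) + e * (ψ 0) ^ 2)
    {m : ℕ} (hm : UnitU_st f m = m) :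
    ∑ q : Fin (N + 1), d q * (UnitU_th f w m q.val) ^ 2 ≤
      C / (2 ^ f m * w) + e * (UnitU_th f w m 0) ^ 2 ∧
    (1 ≤ m → ∑ q : Fin (N + 1), d q * (UnitU_th f w m q.val) ^ 2 ≤
      C / (2 ^ f (m - 1) * w) + e * (UnitU_th f w m 0) ^ 2) := by
  have hwR : (0 : ℝ) < w := by exact_mod_cast hw
  have hL : ∀ n : ℕ, (0 : ℝ) < 2 ^ n * w := fun n => mul_pos (pow_pos two_pos _) hwR
  have hmono : ∀ {n n' : ℕ}, n ≤ n' → C / (2 ^ n' * w) ≤ C / ((2 : ℝ) ^ n * w) := by
    intro n n' h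
    refine div_le_div_of_nonneg_left hC (hL n) ?_
    exact mul_le_mul_of_nonneg_right (pow_le_pow_right₀ one_le_two h) hwR.le
  have habs : ∀ q : Fin (N + 1), |UnitU_th f w m q.val| ≤ 1 := fun q =>
    UnitU_G_le (UnitU_one_le _) _
  have hdir := UnitU_dirE (N := N) hconst hw m
  have hhalf : ∀ {n n' : ℕ}, n' ≤ n + 1 → 1 / ((2 : ℝ) ^ n * w) ≤ 2 / (2 ^ n' * w) := by
    intro n n' h
    rw [div_le_div_iff₀ (hL _) (hL _), one_mul]
    calc (2 : ℝ) ^ n' * w ≤ 2 ^ (n + 1) * w :=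
          mul_le_mul_of_nonneg_right (pow_le_pow_right₀ one_le_two h) hwR.le
      _ = 2 * (2 ^ n * w) := by ring
  have hnum := UnitU_num
  have hpi2 : 0 ≤ (Real.pi / 2) ^ 2 := sq_nonneg _
  by_cases hcase : m = 0 ∨ f (m - 1) ≤ f m
  · -- the window of `m`
    have hd : dirE (fun q : Fin (N + 1) => UnitU_th f w m q.val) ≤ 8 / (2 ^ f m * w) := by
      refine hdir.trans ?_
      have h1 : (if m = 0 then 0 else (Real.pi / 2) ^ 2 * (1 / ((2 : ℝ) ^ f (m - 1) * w))) ≤
          (Real.pi / 2) ^ 2 * (2 / (2 ^ f m * w)) := by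
        by_cases h0 : m = 0
        · rw [if_pos h0]
          exact mul_nonneg hpi2 (div_nonneg two_pos.le (hL _).le)
        · rw [if_neg h0]
          refine mul_le_mul_of_nonneg_left (hhalf ?_) hpi2
          have := (hgr (m - 1)).1
          rwa [Nat.sub_add_cancel (by omega)] at this
      calc _ ≤ (Real.pi / 2) ^ 2 * (1 / (2 ^ f m * w)) + (Real.pi / 2) ^ 2 * (2 / (2 ^ f m * w)) :=
            add_le_add le_rfl h1
        _ = ((Real.pi / 2) ^ 2 * 3) / (2 ^ f m * w) := by ring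
        _ ≤ 8 / (2 ^ f m * w) := div_le_div_of_nonneg_right hnum (hL _).le
    have hs : ∀ q : Fin (N + 1), UnitU_th f w m q.val ≠ 0 →
        m / 2 ^ f m * (2 ^ f m * w) ≤ q.val + 2 ^ f m * w ∧
          q.val < (m / 2 ^ f m + 2) * (2 ^ f m * w) := by
      intro q hq
      obtain ⟨-, hq⟩ := UnitU_supp hconst hw hq
      have e1 : m / 2 ^ f m * (2 ^ f m * w) = m * w := by
        rw [← mul_assoc]; exact congrArg (· * w) hm
      rw [add_mul, e1]
      rcases hq with ⟨h1, h2⟩ | ⟨h0, h1, h2, h3⟩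
      · constructor
        · omega
        · omega
      · have h4 : 2 ^ f (m - 1) * w ≤ 2 ^ f m * w := by
          refine Nat.mul_le_mul_right w (Nat.pow_le_pow_right two_pos ?_)
          rcases hcase with h | h
          · omega
          · exact h
        constructor
        · omega
        · have : 0 < 2 * (2 ^ f m * w) := by positivity
          omega
    have h := hloc m _ habs hs hd
    refine ⟨h, fun h1 => h.trans ?_⟩
    gcongr ?_ + _
    refine hmono ?_
    rcases hcase with h | h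
    · omega
    · exact h
  · -- the window of `m - 1`
    push Not at hcase
    obtain ⟨h0, hlt⟩ := hcase
    have hd : dirE (fun q : Fin (N + 1) => UnitU_th f w m q.val) ≤ 8 / (2 ^ f (m - 1) * w) := by
      refine hdir.trans ?_
      rw [if_neg h0]
      have h1 : (Real.pi / 2) ^ 2 * (1 / ((2 : ℝ) ^ f m * w)) ≤
          (Real.pi / 2) ^ 2 * (2 / (2 ^ f (m - 1) * w)) := by
        refine mul_le_mul_of_nonneg_left (hhalf ?_) hpi2
        have := (hgr (m - 1)).2
        rwa [Nat.sub_add_cancel (by omega)] at this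
      calc _ ≤ (Real.pi / 2) ^ 2 * (2 / (2 ^ f (m - 1) * w)) +
            (Real.pi / 2) ^ 2 * (1 / (2 ^ f (m - 1) * w)) := add_le_add h1 le_rfl
        _ = ((Real.pi / 2) ^ 2 * 3) / (2 ^ f (m - 1) * w) := by ring
        _ ≤ 8 / (2 ^ f (m - 1) * w) := div_le_div_of_nonneg_right hnum (hL _).le
    have hs : ∀ q : Fin (N + 1), UnitU_th f w m q.val ≠ 0 →
        (m - 1) / 2 ^ f (m - 1) * (2 ^ f (m - 1) * w) ≤ q.val + 2 ^ f (m - 1) * w ∧
          q.val < ((m - 1) / 2 ^ f (m - 1) + 2) * (2 ^ f (m - 1) * w) := by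
      intro q hq
      obtain ⟨-, hq⟩ := UnitU_supp hconst hw hq
      -- `m` is the end of the interval of `m - 1`
      have hend : UnitU_st f (m - 1) + 2 ^ f (m - 1) = m := by
        by_contra hne
        have h2 := UnitU_lt f (m - 1)
        have h3 := UnitU_le f (m - 1)
        have h5 := UnitU_mem hconst (k := m - 1) (j := m) (by omega) (by omega)
        have := h5.1
        omega
      have e1 : (m - 1) / 2 ^ f (m - 1) * (2 ^ f (m - 1) * w) = UnitU_st f (m - 1) * w := by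
        rw [← mul_assoc]; rfl
      have e2 : UnitU_st f (m - 1) * w + 2 ^ f (m - 1) * w = m * w := by
        rw [← add_mul, hend]
      rw [add_mul, e1]
      rcases hq with ⟨h1, h2⟩ | ⟨_, h1, h2, h3⟩
      · have h4 : 2 ^ f m * w ≤ 2 ^ f (m - 1) * w :=
          Nat.mul_le_mul_right w (Nat.pow_le_pow_right two_pos hlt.le)
        constructor
        · omega
        · omega
      · constructor
        · omega
        · omega
    have h := hloc (m - 1) _ habs hs hd
    refine ⟨h.trans ?_, fun _ => h⟩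
    gcongr ?_ + _
    exact hmono hlt.le

theorem unit_sum {N w A : ℕ} (hw : 1 ≤ w) (hN : N + 1 ≤ 2 ^ A * w) (f : ℕ → ℕ) (hA : ∀ k, f k ≤ A)
    (hconst : ∀ k k', k' / 2 ^ f k = k / 2 ^ f k → f k' = f k)
    (hgr : ∀ k, f (k + 1) ≤ f k + 1 ∧ f k ≤ f (k + 1) + 1) {e C : ℝ} (he : 0 ≤ e) (hC : 0 ≤ C)
    (d : Fin (N + 1) → ℝ)
    (hloc : ∀ k, ∀ ψ : Fin (N + 1) → ℝ, (∀ q, |ψ q| ≤ 1) →
      (∀ q, ψ q ≠ 0 → k / 2 ^ f k * (2 ^ f k * w) ≤ q.val + 2 ^ f k * w ∧
        q.val < (k / 2 ^ f k + 2) * (2 ^ f k * w)) →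
      dirE ψ ≤ 8 / (2 ^ f k * w) → ∑ q, d q * (ψ q) ^ 2 ≤ C / (2 ^ f k * w) + e * (ψ 0) ^ 2) :
    ∑ q, d q ≤ 3 * C / w * ∑ k ∈ range (2 ^ A), ((1 : ℝ) / 4) ^ f k + e := by
  classical
  have hwR : (0 : ℝ) < w := by exact_mod_cast hw
  have hL : ∀ n : ℕ, (0 : ℝ) < 2 ^ n * w := fun n => mul_pos (pow_pos two_pos _) hwR
  have hcell : ∀ q : ℕ, q < N + 1 → q / w < 2 ^ A := fun q hq => by
    rw [Nat.div_lt_iff_lt_mul hw]
    omega
  -- the sum over the partition
  have hone : ∀ q : Fin (N + 1), ∑ m ∈ range (2 ^ A + 1), (UnitU_th f w m q.val) ^ 2 = 1 :=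
    fun q => UnitU_G_sum (UnitU_one_le _) (Nat.lt_succ_of_le (UnitU_top hA (hcell _ q.2))) _
  have h1 : ∑ q, d q = ∑ m ∈ range (2 ^ A + 1), ∑ q : Fin (N + 1),
      d q * (UnitU_th f w m q.val) ^ 2 := by
    rw [Finset.sum_comm]
    refine Finset.sum_congr rfl fun q _ => ?_
    rw [← Finset.mul_sum, hone, mul_one]
  have hzero : ∀ m, UnitU_st f m ≠ m → ∀ q, UnitU_th f w m q = 0 := by
    intro m hm q
    by_contra h
    exact hm (UnitU_supp hconst hw h).1
  -- the bound for the break points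
  have h2 : ∀ m ∈ range (2 ^ A), ∑ q : Fin (N + 1), d q * (UnitU_th f w m q.val) ^ 2 ≤
      (if UnitU_st f m = m then C / (2 ^ f m * w) else 0) + e * (UnitU_th f w m 0) ^ 2 := by
    intro m _
    by_cases hm : UnitU_st f m = m
    · rw [if_pos hm]
      exact (UnitU_loc hw hconst hgr hC d hloc hm).1
    · rw [if_neg hm, hzero m hm 0]
      refine le_of_eq ?_
      rw [Finset.sum_eq_zero fun q _ => by rw [hzero m hm q.val]; ring]
      ring
  have hp2 : 0 < 2 ^ A := pow_pos two_pos _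
  have hend : UnitU_st f (2 ^ A) = 2 ^ A := by
    have h3 := UnitU_end hconst (2 ^ A - 1)
    have h4 := UnitU_top hA (k := 2 ^ A - 1) (by omega)
    have h5 := UnitU_lt f (2 ^ A - 1)
    have h6 : UnitU_st f (2 ^ A - 1) + 2 ^ f (2 ^ A - 1) = 2 ^ A := by omega
    rwa [h6] at h3
  have h3 : ∑ q : Fin (N + 1), d q * (UnitU_th f w (2 ^ A) q.val) ^ 2 ≤
      C / (2 ^ f (2 ^ A - 1) * w) + e * (UnitU_th f w (2 ^ A) 0) ^ 2 :=
    (UnitU_loc hw hconst hgr hC d hloc hend).2 hp2
  -- the number of cells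
  have hS : ∑ m ∈ range (2 ^ A), (if UnitU_st f m = m then C / (2 ^ f m * w) else 0) ≤
      C / w * ∑ k ∈ range (2 ^ A), ((1 : ℝ) / 4) ^ f k := by
    have hfib := Finset.sum_fiberwise_of_maps_to (s := range (2 ^ A)) (t := range (2 ^ A))
      (g := fun k => UnitU_st f k) (fun k hk => mem_range.2
        (lt_of_le_of_lt (UnitU_le f k) (mem_range.1 hk))) (fun k => ((1 : ℝ) / 4) ^ f k)
    rw [← hfib, Finset.mul_sum]
    refine Finset.sum_le_sum fun m hm => ?_
    have hnn : 0 ≤ ∑ k ∈ range (2 ^ A) with UnitU_st f k = m, ((1 : ℝ) / 4) ^ f k :=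
      Finset.sum_nonneg fun k _ => by positivity
    by_cases hb : UnitU_st f m = m
    · rw [if_pos hb]
      have hsub : Ico m (m + 2 ^ f m) ⊆ (range (2 ^ A)).filter fun k => UnitU_st f k = m := by
        intro k hk
        obtain ⟨h4, h5⟩ := mem_Ico.1 hk
        have h6 := UnitU_mem hconst (k := m) (j := k) (by omega) (by omega)
        have h7 := UnitU_top hA (mem_range.1 hm)
        refine mem_filter.2 ⟨mem_range.2 (by omega), by rw [h6.2, hb]⟩
      have h4 : ∑ k ∈ Ico m (m + 2 ^ f m), ((1 : ℝ) / 4) ^ f k ≤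
          ∑ k ∈ range (2 ^ A) with UnitU_st f k = m, ((1 : ℝ) / 4) ^ f k :=
        Finset.sum_le_sum_of_subset_of_nonneg hsub fun k _ _ => by positivity
      have h5 : ∑ k ∈ Ico m (m + 2 ^ f m), ((1 : ℝ) / 4) ^ f k = 1 / 2 ^ f m := by
        have h6 : ∀ k ∈ Ico m (m + 2 ^ f m), ((1 : ℝ) / 4) ^ f k = (1 / 4) ^ f m := by
          intro k hk
          obtain ⟨h7, h8⟩ := mem_Ico.1 hk
          rw [(UnitU_mem hconst (k := m) (j := k) (by omega) (by omega)).1]
        rw [Finset.sum_congr rfl h6, Finset.sum_const, Nat.card_Ico, nsmul_eq_mul,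
          Nat.add_sub_cancel_left]
        push_cast
        rw [← mul_pow, ← one_div_pow]
        norm_num
      rw [h5] at h4
      calc C / (2 ^ f m * w) = C / w * (1 / 2 ^ f m) := by
            field_simp
        _ ≤ _ := mul_le_mul_of_nonneg_left h4 (div_nonneg hC hwR.le)
    · rw [if_neg hb]
      exact mul_nonneg (div_nonneg hC hwR.le) hnn
  have hlast : C / (2 ^ f (2 ^ A - 1) * w) ≤
      ∑ m ∈ range (2 ^ A), (if UnitU_st f m = m then C / (2 ^ f m * w) else 0) := by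
    have h4 := UnitU_le f (2 ^ A - 1)
    have h5 := Finset.single_le_sum (f := fun m =>
      (if UnitU_st f m = m then C / ((2 : ℝ) ^ f m * w) else 0)) (s := range (2 ^ A))
      (fun m _ => by
        by_cases hb : UnitU_st f m = m
        · rw [if_pos hb]; exact div_nonneg hC (hL _).le
        · rw [if_neg hb])
      (mem_range.2 (show UnitU_st f (2 ^ A - 1) < 2 ^ A by omega))
    beta_reduce at h5
    rw [if_pos (UnitU_stst hconst _), UnitU_fst hconst] at h5
    exact h5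
  have he1 : ∑ m ∈ range (2 ^ A + 1), e * (UnitU_th f w m 0) ^ 2 = e := by
    rw [← Finset.mul_sum]
    have := hone 0
    rw [Fin.val_zero] at this
    rw [this, mul_one]
  rw [h1, Finset.sum_range_succ]
  rw [Finset.sum_range_succ] at he1
  have h6 := Finset.sum_le_sum h2
  rw [Finset.sum_add_distrib] at h6
  have hX : 0 ≤ C / w * ∑ k ∈ range (2 ^ A), ((1 : ℝ) / 4) ^ f k :=
    mul_nonneg (div_nonneg hC hwR.le) (Finset.sum_nonneg fun k _ => by positivity)
  have hfin : 3 * C / w * ∑ k ∈ range (2 ^ A), ((1 : ℝ) / 4) ^ f k =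
      3 * (C / w * ∑ k ∈ range (2 ^ A), ((1 : ℝ) / 4) ^ f k) := by ring
  rw [hfin]
  linarith

end Pool.Agent.Lib.HAP
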