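import Pool.Agent.Lib.HAP.B.HvyC
import Pool.Agent.Lib.HAP.B.CountS
import Pool.Agent.Lib.HAP.B.UnitU
import Pool.Agent.Lib.HAP.QWin

/-!
MODULE B.DSumB: the cost of one unit of time (`M = μ^3`, `A = 1`), without a logarithm.

PROOF.  `w = ⌈μ √s⌉₊` (`μ √s ≤ w ≤ 2 μ √s`, `w ≥ 1`), `R₁ = (N+1)/(μ^3 √s) ≥ 1` (`hsN`), a natural number `A`
with `N + 1 ≤ 2^A w` (for instance `A = N + 1`), `H = Hvy e w d`, `f = sc H A`.  Apply `unit_sum` with
`C = 296`: `sc_le`, `sc_const`, `sc_succ`; `hloc`: if `f k ≥ 1` then `H (f k) (k/2^(f k))` is false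
(`sc_light`), so `∑ d ψ^2 < 9/ℓ + e (ψ 0)^2`; if `f k = 0` then `hd` and `q_window` with `S` = the positions `q`
with `k w ≤ q + w`, `q < (k+2) w` (at most `3 w`, `w' = 3 w`): `∑ d ψ^2 ≤ dirE ψ + e (ψ 0)^2 + 36 w^2/(μ^3 s √s)
≤ 8/w + e (ψ 0)^2 + 288/w` (`w^2 ≤ 4 μ^2 s`, `144/(μ √s) ≤ 288/w`).
So `∑ d ≤ 888/w * ∑_{k < 2^A} (1/4)^(f k) + e ≤ 888/w * ((1/2)^A + 60 ∑_{b=1}^A card (HV b) (1/2)^b) + e`
(`sum_sc_le` with `S b = HV e w d b`, `hvy_lt`), `hvy_card`, `∑_{b ≥ 1} (269 + b)(1/2)^b ≤ 271`: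
`≤ 888/w * (1 + 4800 * 271 R₁) + e ≤ 888 * 1300801 R₁/w + e ≤ 12 * 10^8 R₁/w + e` and
`R₁/w ≤ (N+1)/(μ^4 s)`.
-/

set_option autoImplicit false

namespace Pool.Agent.Lib.HAP

open Finset

private theorem db_geom (A : ℕ) :
    ∑ b ∈ Icc 1 A, (269 + (b : ℝ)) * (1 / 2) ^ b = 271 - (271 + A) * (1 / 2) ^ A := by
  induction A with
  | zero => simp
  | succ n ih =>
    rw [Finset.sum_Icc_succ_top (by omega), ih, pow_succ]
    push_cast
    ring

private theorem db_geom_le (A : ℕ) :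
    ∑ b ∈ Icc 1 A, (269 + (b : ℝ)) * (1 / 2) ^ b ≤ 271 := by
  rw [db_geom]
  have : (0 : ℝ) ≤ (271 + A) * (1 / 2) ^ A := by positivity
  linarith

private theorem db_card {N : ℕ} (k w : ℕ) :
    (((univ : Finset (Fin (N + 1))).filter
      (fun q => k * w ≤ q.val + w ∧ q.val < (k + 2) * w)).card : ℝ) ≤ 3 * w := by
  have h1 : ((univ : Finset (Fin (N + 1))).filter
      (fun q => k * w ≤ q.val + w ∧ q.val < (k + 2) * w)).card ≤
      (Finset.Ico (k * w - w) ((k + 2) * w)).card := by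
    refine Finset.card_le_card_of_injOn (fun q => q.val) ?_ ?_
    · intro q hq
      have hq' := (Finset.mem_filter.1 (Finset.mem_coe.1 hq)).2
      rw [Finset.mem_coe, Finset.mem_Ico]
      refine ⟨?_, hq'.2⟩
      have := hq'.1
      show k * w - w ≤ q.val
      omega
    · intro a _ b _ hab
      exact Fin.ext hab
  have h2 : (Finset.Ico (k * w - w) ((k + 2) * w)).card ≤ 3 * w := by
    rw [Nat.card_Ico]
    have : (k + 2) * w = k * w + 2 * w := by ring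
    omega
  exact_mod_cast h1.trans h2

private theorem db_loc {N w : ℕ} {e μ s : ℝ} (hμ : 1 ≤ μ) (hs : 1 ≤ s)
    (hw1 : 1 ≤ w) (hw : (w : ℝ) ≤ 2 * μ * Real.sqrt s) (V : Finset ℤ) (b r d : Fin (N + 1) → ℝ)
    (hd : ∀ x : Fin (N + 1) → ℝ, ∑ q, d q * (x q) ^ 2 ≤ Qf 1 e (μ ^ 3) V b r s x) (A k : ℕ)
    (ψ : Fin (N + 1) → ℝ) (h1 : ∀ q, |ψ q| ≤ 1)
    (h2 : ∀ q, ψ q ≠ 0 → k / 2 ^ sc (Hvy e w d) A k * (2 ^ sc (Hvy e w d) A k * w) ≤
        q.val + 2 ^ sc (Hvy e w d) A k * w ∧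
        q.val < (k / 2 ^ sc (Hvy e w d) A k + 2) * (2 ^ sc (Hvy e w d) A k * w))
    (h3 : dirE ψ ≤ 8 / (2 ^ sc (Hvy e w d) A k * w)) :
    ∑ q, d q * (ψ q) ^ 2 ≤ 296 / (2 ^ sc (Hvy e w d) A k * w) + e * (ψ 0) ^ 2 := by
  have hw0 : (0 : ℝ) < w := by exact_mod_cast hw1
  rcases Nat.eq_zero_or_pos (sc (Hvy e w d) A k) with h0 | h0
  · rw [h0] at h2 h3 ⊢
    simp only [pow_zero, one_mul, Nat.div_one] at h2 h3 ⊢
    have hs0 : (0 : ℝ) < Real.sqrt s := Real.sqrt_pos.2 (by linarith)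
    have hss : Real.sqrt s * Real.sqrt s = s := Real.mul_self_sqrt (by linarith)
    have hμ0 : (0 : ℝ) < μ := by linarith
    have hM : (0 : ℝ) < μ ^ 3 := by positivity
    have g1 := hd ψ
    have g2 := q_window hM hs V b r ψ
      ((univ : Finset (Fin (N + 1))).filter
        (fun q => k * w ≤ q.val + w ∧ q.val < (k + 2) * w)) (db_card k w) h1 (by
          intro q hq
          by_contra hne
          exact hq (Finset.mem_filter.2 ⟨Finset.mem_univ _, h2 q hne⟩))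
    have g3 : 4 * (3 * (w : ℝ)) ^ 2 / (μ ^ 3 * (s * Real.sqrt s)) ≤ 288 / w := by
      rw [div_le_div_iff₀ (by positivity) hw0]
      have a1 : (w : ℝ) ^ 2 ≤ (2 * μ * Real.sqrt s) ^ 2 := pow_le_pow_left₀ hw0.le hw 2
      have a2 : (w : ℝ) ^ 3 ≤ (2 * μ * Real.sqrt s) ^ 3 := pow_le_pow_left₀ hw0.le hw 3
      have a3 : (2 * μ * Real.sqrt s) ^ 3 = 8 * μ ^ 3 * (s * Real.sqrt s) := by
        calc (2 * μ * Real.sqrt s) ^ 3 = 8 * μ ^ 3 * ((Real.sqrt s * Real.sqrt s) * Real.sqrt s) := by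
              ring
          _ = _ := by rw [hss]
      rw [a3] at a2
      nlinarith
    unfold Qf at g1
    have g4 : (8 : ℝ) / w + 288 / w = 296 / w := by ring
    linarith
  · have h5 := sc_light (Hvy e w d) A k h0
    by_contra hcon
    rw [not_le] at hcon
    apply h5
    refine ⟨ψ, h1, h2, h3, ?_⟩
    have h6 : (9 : ℝ) / (2 ^ sc (Hvy e w d) A k * w) ≤ 296 / (2 ^ sc (Hvy e w d) A k * w) := by
      apply div_le_div_of_nonneg_right (by norm_num) (by positivity)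
    linarith

theorem dsumB {N : ℕ} {e μ s : ℝ} (he : 0 ≤ e) (hμ : 1 ≤ μ) (hs : 1 ≤ s)
    (hsN : μ ^ 3 * Real.sqrt s ≤ N + 1) (V : Finset ℤ) (b r d : Fin (N + 1) → ℝ)
    (hd : ∀ x : Fin (N + 1) → ℝ, ∑ q, d q * (x q) ^ 2 ≤ Qf 1 e (μ ^ 3) V b r s x) :
    ∑ q, d q ≤ 12 * 10 ^ 8 * (N + 1) / μ ^ 4 / s + e := by
  have hs1 : (1 : ℝ) ≤ Real.sqrt s := by
    rw [Real.one_le_sqrt]
    exact hs
  have hs0 : (0 : ℝ) < Real.sqrt s := by linarith
  have hss : Real.sqrt s * Real.sqrt s = s := Real.mul_self_sqrt (by linarith)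
  have hμ0 : (0 : ℝ) < μ := by linarith
  have hms : (1 : ℝ) ≤ μ * Real.sqrt s := one_le_mul_of_one_le_of_one_le hμ hs1
  obtain ⟨w, hwdef⟩ : ∃ w : ℕ, w = ⌈μ * Real.sqrt s⌉₊ := ⟨_, rfl⟩
  have hwlo : μ * Real.sqrt s ≤ w := by rw [hwdef]; exact Nat.le_ceil _
  have hwhi : (w : ℝ) ≤ 2 * μ * Real.sqrt s := by
    have := Nat.ceil_lt_add_one (a := μ * Real.sqrt s) (by linarith)
    rw [← hwdef] at this
    linarith
  have hw1 : 1 ≤ w := by
    have h : (1 : ℝ) ≤ w := by linarith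
    exact_mod_cast h
  have hw0 : (0 : ℝ) < w := by exact_mod_cast hw1
  have hAN : N + 1 ≤ 2 ^ (N + 1) * w := by
    calc N + 1 ≤ 2 ^ (N + 1) := (Nat.lt_two_pow_self).le
      _ = 2 ^ (N + 1) * 1 := (mul_one _).symm
      _ ≤ 2 ^ (N + 1) * w := Nat.mul_le_mul_left _ hw1
  have hU := unit_sum hw1 hAN (sc (Hvy e w d) (N + 1)) (sc_le _ _)
    (fun k k' h => sc_const _ _ k k' h) (fun k => sc_succ _ _ k) he
    (by norm_num : (0 : ℝ) ≤ 296) d
    (fun k ψ h1 h2 h3 => db_loc hμ hs hw1 hwhi V b r d hd (N + 1) k ψ h1 h2 h3)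
  have hS := sum_sc_le (Hvy e w d) (N + 1) (HV e w d)
    (fun a m _ _ h => hvy_lt he hw1 d h)
  obtain ⟨R, hR⟩ : ∃ R : ℝ, R = (N + 1) / (μ ^ 3 * Real.sqrt s) := ⟨_, rfl⟩
  have hden : 0 < μ ^ 3 * Real.sqrt s := by positivity
  have hR1 : 1 ≤ R := by
    rw [hR, le_div_iff₀ hden, one_mul]
    exact hsN
  have hcard : ∀ a ∈ Icc 1 (N + 1), ((HV e w d a).card : ℝ) * (1 / 2) ^ a ≤
      80 * R * ((269 + (a : ℝ)) * (1 / 2) ^ a) := by
    intro a _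
    have h := hvy_card hμ hs hw1 hwhi V b r d hd a
    have h' : (80 : ℝ) * (269 + a) * (N + 1) / (μ ^ 3 * Real.sqrt s) = 80 * R * (269 + a) := by
      rw [hR]
      ring
    rw [h'] at h
    calc ((HV e w d a).card : ℝ) * (1 / 2) ^ a ≤ (80 * R * (269 + a)) * (1 / 2) ^ a :=
          mul_le_mul_of_nonneg_right h (by positivity)
      _ = _ := by ring
  have hsum : ∑ a ∈ Icc 1 (N + 1), ((HV e w d a).card : ℝ) * (1 / 2) ^ a ≤ 80 * R * 271 := by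
    refine (Finset.sum_le_sum hcard).trans ?_
    rw [← Finset.mul_sum]
    exact mul_le_mul_of_nonneg_left (db_geom_le _) (by linarith)
  have hhalf : ((1 : ℝ) / 2) ^ (N + 1) ≤ 1 := pow_le_one₀ (by norm_num) (by norm_num)
  have hT : ∑ k ∈ range (2 ^ (N + 1)), ((1 : ℝ) / 4) ^ sc (Hvy e w d) (N + 1) k ≤
      1300801 * R := by
    linarith
  have hfin : 3 * 296 / (w : ℝ) *
      ∑ k ∈ range (2 ^ (N + 1)), ((1 : ℝ) / 4) ^ sc (Hvy e w d) (N + 1) k ≤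
      12 * 10 ^ 8 * (N + 1) / μ ^ 4 / s := by
    calc 3 * 296 / (w : ℝ) *
        ∑ k ∈ range (2 ^ (N + 1)), ((1 : ℝ) / 4) ^ sc (Hvy e w d) (N + 1) k
        ≤ 3 * 296 / (w : ℝ) * (1300801 * R) := mul_le_mul_of_nonneg_left hT (by positivity)
      _ ≤ 3 * 296 / (μ * Real.sqrt s) * (1300801 * R) := by
          refine mul_le_mul_of_nonneg_right ?_ (by linarith)
          exact div_le_div_of_nonneg_left (by norm_num) (by positivity) hwlo
      _ = 1155111288 * ((N + 1) / μ ^ 4 / s) := by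
          rw [hR]
          rw [show (N + 1 : ℝ) / μ ^ 4 / s = (N + 1) / μ ^ 4 / (Real.sqrt s * Real.sqrt s) by
            rw [hss]]
          field_simp
          ring
      _ ≤ 12 * 10 ^ 8 * ((N + 1) / μ ^ 4 / s) := by
          refine mul_le_mul_of_nonneg_right (by norm_num) ?_
          positivity
      _ = _ := by ring
  linarith

end Pool.Agent.Lib.HAP
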