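import Pool.Agent.Lib.HAP.Defs

/-!
# Project HAP, part A2: the lower bound `n / (log n)^(3/4)` (no factor `log log n`)

Part A loses `K + 1 ≈ log μ` because the Taylor remainder of a cell is summed against the full load.
Here (1) it is summed only against the family of test functions itself (`QKer`, `KSel`, `Fam`), which
shows that at every scale `2^a w` (`w = ⌈μ √s⌉`) only `C (1 + a) (N+1)/(μ^3 √s)` windows are heavy
(`HvyC`); (2) the positions are divided in dyadic windows of variable length (`Scale`, `CountS`,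
`UnitU`), each of which is not heavy at its scale or has length `w`.  Together (`DSumB`)
`∑ d_q ≤ C (N+1)/(μ^4 s) + e`.
-/

set_option autoImplicit false

namespace Pool.Agent.Lib.HAP

open Finset

noncomputable section

/-- The window number `m` of length `2^a w` is heavy: there is a test function on the window and its
two neighbours, of Dirichlet energy at most `8/(2^a w)`, on which the diagonal form is at least
`9/(2^a w)`. -/
def Hvy {N : ℕ} (e : ℝ) (w : ℕ) (d : Fin (N + 1) → ℝ) (a m : ℕ) : Prop :=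
  ∃ ψ : Fin (N + 1) → ℝ, (∀ q, |ψ q| ≤ 1) ∧
    (∀ q, ψ q ≠ 0 → m * (2 ^ a * w) ≤ q.val + 2 ^ a * w ∧ q.val < (m + 2) * (2 ^ a * w)) ∧
    dirE ψ ≤ 8 / (2 ^ a * w) ∧ 9 / (2 ^ a * w) + e * (ψ 0) ^ 2 ≤ ∑ q, d q * (ψ q) ^ 2

/-- The dyadic interval `[m 2^a, (m+1) 2^a)` has distance at least `2 * 2^a` from all heavy intervals of
the scales `1, .., a`. -/
def Free (H : ℕ → ℕ → Prop) (a m : ℕ) : Prop :=
  ∀ b m', 1 ≤ b → b ≤ a → H b m' → (m' + 1) * 2 ^ b + 2 * 2 ^ a ≤ m * 2 ^ a ∨
    (m + 3) * 2 ^ a ≤ m' * 2 ^ b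

open Classical in
/-- The scale of the cell `k`: the largest `a ≤ A` such that the dyadic interval of length `2^a`
containing `k` is free. -/
def sc (H : ℕ → ℕ → Prop) (A k : ℕ) : ℕ := Nat.findGreatest (fun a => Free H a (k / 2 ^ a)) A

open Classical in
/-- The finite set of the heavy windows of scale `a`. -/
def HV {N : ℕ} (e : ℝ) (w : ℕ) (d : Fin (N + 1) → ℝ) (a : ℕ) : Finset ℕ :=
  (range (N + 2)).filter fun m => Hvy e w d a m

/-- The number of positions where `ψ` does not vanish. -/
def nz {N : ℕ} (ψ : Fin (N + 1) → ℝ) : ℕ := (univ.filter fun q => ψ q ≠ 0).card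

end

end Pool.Agent.Lib.HAP
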