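import Pool.Agent.Lib.HAP.B.QKer
import Pool.Agent.Lib.HAP.B.CellS
import Pool.Agent.Lib.HAP.Rich

/-!
MODULE B.Fam: a separated family of test functions of scale `a` on which the diagonal form is large has
few members.

PROOF.  `M = μ^3`, `ℓ = 2^a w` (real number, `1 ≤ ℓ`), `L = ⌈√s⌉₊` (`√s ≤ L ≤ 2 √s`), `S` = the union of the
supports (`S.card ≤ 3 ℓ m`), `R` = the image of `{v ∈ V | M ≤ load b r s v}` under `v ↦ v / L`
(`R.card ≤ 10 (N+1)/(M √s)`, `rich_card`), `G = M s √s/(300 ℓ^2)`,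
`Aj j = ∑ q ∈ S, exp(-(3/16)(j L - (r q + b q))^2/s)`, `K₀ = 268 + a`, `Kf` from `ksel`.
(1) `∑_{j ∈ R} Aj j ≤ 8 S.card ≤ 24 m ℓ` (`cell_sum`, exchange the sums).  `ℓ ≤ 2^(a+1) μ √s`, so
`ℓ^3 ≤ 8^(a+1) M s √s`, and `exp 524/(9^K₀ G) * 24 m ℓ = 7200 exp 524 m ℓ^3/(9^K₀ M s √s) ≤
57600 exp 524 * 8^a m/9^(268+a) ≤ m/2`, because `exp 524 ≤ 3^524 = 9^262` (`exp 1 < 3`), `115200 ≤ 9^6` and
`8^a ≤ 9^a`.  So `∑_{j ∈ R} (Kf j + 1) ≤ (269 + a) R.card + m/2`.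
(2) Suppose `∑_{j ∈ R} (Kf j + 1) < m`.  The linear map `c ↦ (∑_q (∑_i c_i ψ_i q) * ℓ_{j,k} q)_{j ∈ R, k ≤ Kf j}`
from `Fin m → ℝ` has a nonzero kernel vector `c` (dimension; `LinearMap.exists_ne_zero_of_..` or
`Matrix.exists_mulVec_eq_zero_of_card_lt`-type lemma; index type `Σ j : R, Fin (Kf j + 1)`), where
`ℓ_{j,k} q` is the functional in `hc` of `q_kernel`.  `q_kernel` with `T = 3 ℓ`: the load part of
`Qf 1 e M V b r s (∑ c_i ψ_i)` is at most `90 G * 3ℓ/(M s √s) ∑ c_i^2 = (9/10)/ℓ * ∑ c_i^2`.  By `Sep`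
`∑_q d_q (∑ c_i ψ_i q)^2 = ∑ c_i^2 ∑_q d_q (ψ_i q)^2`, `dirE (∑ c_i ψ_i) = ∑ c_i^2 dirE (ψ_i)`,
`(∑ c_i ψ_i 0)^2 = ∑ c_i^2 (ψ_i 0)^2` (at most one `ψ_i` is not zero at the ends of an edge; compare
`HAP/NoMany.lean`).  With `hd`, `hD`, `hdir`:
`∑ c_i^2 (9/ℓ + e (ψ_i 0)^2) ≤ ∑ c_i^2 (8/ℓ + e (ψ_i 0)^2) + (9/10)/ℓ ∑ c_i^2`, contradiction
(`∑ c_i^2 > 0`).
(3) So `m ≤ (269 + a) R.card + m/2`, `m ≤ 2 (269 + a) R.card ≤ 20 (269 + a)(N+1)/(M √s)`.
-/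

set_option autoImplicit false

namespace Pool.Agent.Lib.HAP

open Finset

private lemma Fam_kernel {ι : Type} [Fintype ι] {m : ℕ} (h : Fintype.card ι < m)
    (A : ι → Fin m → ℝ) : ∃ c : Fin m → ℝ, c ≠ 0 ∧ ∀ k, ∑ i, c i * A k i = 0 := by
  let f : (Fin m → ℝ) →ₗ[ℝ] (ι → ℝ) :=
    { toFun := fun c k => ∑ i, c i * A k i
      map_add' := by
        intro x y; funext k
        simp [add_mul, sum_add_distrib]
      map_smul' := by
        intro t x; funext k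
        simp [mul_sum, mul_assoc] }
  have hk : LinearMap.ker f ≠ ⊥ := by
    apply LinearMap.ker_ne_bot_of_finrank_lt
    simpa using h
  obtain ⟨c, hc, hc0⟩ := Submodule.exists_mem_ne_zero_of_ne_bot hk
  refine ⟨c, hc0, fun k => ?_⟩
  have h1 : f c = 0 := hc
  exact congrFun h1 k

private lemma Fam_sq {m : ℕ} (c x : Fin m → ℝ) (h : ∀ i j, i ≠ j → x i = 0 ∨ x j = 0) :
    (∑ i, c i * x i) ^ 2 = ∑ i, (c i) ^ 2 * (x i) ^ 2 := by
  rw [sq, sum_mul_sum]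
  apply sum_congr rfl
  intro i _
  rw [sum_eq_single i]
  · ring
  · intro j _ hji
    rcases h i j (Ne.symm hji) with h1 | h1 <;> rw [h1] <;> ring
  · intro h; exact absurd (mem_univ i) h

private lemma Fam_exp : Real.exp 524 ≤ 9 ^ 262 := by
  have h1 : Real.exp 1 ≤ 3 := by
    have := Real.exp_one_lt_d9
    linarith
  have h2 : Real.exp 524 = Real.exp 1 ^ 524 := by
    rw [← Real.exp_nat_mul]; norm_num
  rw [h2]
  calc Real.exp 1 ^ 524 ≤ 3 ^ 524 := by gcongr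
    _ = (3 ^ 2) ^ 262 := by rw [← pow_mul]
    _ = 9 ^ 262 := by norm_num

theorem fam_card {N m w a : ℕ} {e μ s : ℝ} (hμ : 1 ≤ μ) (hs : 1 ≤ s) (hw1 : 1 ≤ w)
    (hw : (w : ℝ) ≤ 2 * μ * Real.sqrt s) (V : Finset ℤ)
    (b r d : Fin (N + 1) → ℝ)
    (hd : ∀ x : Fin (N + 1) → ℝ, ∑ q, d q * (x q) ^ 2 ≤ Qf 1 e (μ ^ 3) V b r s x)
    (ψ : Fin m → Fin (N + 1) → ℝ) (hsep : Sep ψ) (h1 : ∀ i q, |ψ i q| ≤ 1)
    (hnz : ∀ i, nz (ψ i) ≤ 3 * (2 ^ a * w)) (hdir : ∀ i, dirE (ψ i) ≤ 8 / (2 ^ a * w))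
    (hD : ∀ i, 9 / (2 ^ a * w) + e * (ψ i 0) ^ 2 ≤ ∑ q, d q * (ψ i q) ^ 2) :
    (m : ℝ) ≤ 20 * (269 + a) * (N + 1) / (μ ^ 3 * Real.sqrt s) := by
  classical
  have hs0 : 0 < s := by linarith
  have hq1 : 1 ≤ Real.sqrt s := by
    rw [show (1 : ℝ) = Real.sqrt 1 by simp]; exact Real.sqrt_le_sqrt hs
  have hq0 : 0 < Real.sqrt s := by linarith
  have hss : Real.sqrt s ^ 2 = s := Real.sq_sqrt hs0.le
  obtain ⟨M, hMdef⟩ : ∃ M : ℝ, M = μ ^ 3 := ⟨_, rfl⟩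
  have hM0 : 0 < M := by rw [hMdef]; positivity
  rw [← hMdef] at hd ⊢
  obtain ⟨ℓ, hℓ⟩ : ∃ ℓ : ℝ, ℓ = 2 ^ a * w := ⟨_, rfl⟩
  have hw1' : (1 : ℝ) ≤ w := by exact_mod_cast hw1
  have hℓ0 : 0 < ℓ := by rw [hℓ]; positivity
  rw [← hℓ] at hdir hD
  -- the cells
  obtain ⟨L, hLdef⟩ : ∃ L : ℕ, L = ⌈Real.sqrt s⌉₊ := ⟨_, rfl⟩
  have hL : Real.sqrt s ≤ L := by rw [hLdef]; exact Nat.le_ceil _
  have hL2 : (L : ℝ) ≤ 2 * Real.sqrt s := by
    have := Nat.ceil_lt_add_one hq0.le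
    rw [← hLdef] at this
    linarith
  -- the union of the supports
  obtain ⟨S, hSdef⟩ : ∃ S : Finset (Fin (N + 1)), S = univ.biUnion fun i : Fin m =>
    univ.filter fun q => ψ i q ≠ 0 := ⟨_, rfl⟩
  have hS : ∀ i q, ψ i q ≠ 0 → q ∈ S := by
    intro i q h
    rw [hSdef, mem_biUnion]
    exact ⟨i, mem_univ i, by simp [h]⟩
  have hScard : (S.card : ℝ) ≤ 3 * ℓ * m := by
    have h2 : S.card ≤ ∑ i : Fin m, 3 * (2 ^ a * w) := by
      rw [hSdef]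
      exact card_biUnion_le.trans (sum_le_sum fun i _ => hnz i)
    rw [sum_const, card_univ, Fintype.card_fin, smul_eq_mul] at h2
    have h3 : ((S.card : ℕ) : ℝ) ≤ ((m * (3 * (2 ^ a * w)) : ℕ) : ℝ) := by exact_mod_cast h2
    push_cast at h3
    rw [hℓ]
    linarith
  -- rich cells
  obtain ⟨R, hRdef⟩ : ∃ R : Finset ℤ, R = (V.filter fun v : ℤ => M ≤ load b r s (v : ℝ)).image
    fun v : ℤ => v / (L : ℤ) := ⟨_, rfl⟩
  have hRcard : (R.card : ℝ) ≤ 10 * (N + 1) / (M * Real.sqrt s) := by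
    apply rich_card hM0 hs V b r L hL R
    intro j hj
    rw [hRdef, mem_image] at hj
    obtain ⟨v, hv, hvj⟩ := hj
    rw [mem_filter] at hv
    exact ⟨v, hv.1, hvj, hv.2⟩
  -- the thresholds
  obtain ⟨G, hGdef⟩ : ∃ G : ℝ, G = M * (s * Real.sqrt s) / (300 * ℓ ^ 2) := ⟨_, rfl⟩
  have hG0 : 0 < G := by rw [hGdef]; positivity
  obtain ⟨Aj, hAj⟩ : ∃ Aj : ℤ → ℝ, Aj = fun j : ℤ => ∑ q ∈ S,
    Real.exp (-(3 / 16) * ((j : ℝ) * L - (r q + b q)) ^ 2 / s) := ⟨_, rfl⟩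
  have hAj0 : ∀ j, 0 ≤ Aj j := by
    intro j; rw [hAj]; exact sum_nonneg fun q _ => (Real.exp_pos _).le
  obtain ⟨Kf, hK1, hK2⟩ := ksel R Aj hAj0 hG0 (268 + a)
  have hAsum : ∑ j ∈ R, Aj j ≤ 24 * m * ℓ := by
    rw [hAj]
    dsimp only
    rw [sum_comm]
    calc ∑ q ∈ S, ∑ j ∈ R, Real.exp (-(3 / 16) * ((j : ℝ) * L - (r q + b q)) ^ 2 / s)
        ≤ ∑ q ∈ S, (8 : ℝ) := sum_le_sum fun q _ => cell_sum R L hs0 hL (r q + b q)
      _ = 8 * S.card := by rw [sum_const, nsmul_eq_mul]; ring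
      _ ≤ 24 * m * ℓ := by nlinarith
  have hℓ3 : ℓ ^ 3 ≤ 8 * 8 ^ a * (M * (s * Real.sqrt s)) := by
    have h2 : ℓ ≤ 2 ^ a * (2 * μ * Real.sqrt s) := by
      rw [hℓ]; gcongr
    calc ℓ ^ 3 ≤ (2 ^ a * (2 * μ * Real.sqrt s)) ^ 3 := by gcongr
      _ = 8 * (2 ^ a) ^ 3 * (μ ^ 3 * (Real.sqrt s ^ 2 * Real.sqrt s)) := by ring
      _ = 8 * 8 ^ a * (M * (s * Real.sqrt s)) := by
        rw [hss, hMdef, ← pow_mul, mul_comm a 3, pow_mul]; norm_num
  have hm0 : (0 : ℝ) ≤ m := Nat.cast_nonneg m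
  have hE : Real.exp 524 / (9 ^ (268 + a) * G) * ∑ j ∈ R, Aj j ≤ m / 2 := by
    have hP : 0 < M * (s * Real.sqrt s) := by positivity
    have h3 : Real.exp 524 / (9 ^ (268 + a) * G) * ∑ j ∈ R, Aj j ≤
        9 ^ 262 / (9 ^ (268 + a) * G) * (24 * m * ℓ) := by
      apply mul_le_mul _ hAsum (sum_nonneg fun j _ => hAj0 j) (by positivity)
      exact div_le_div_of_nonneg_right Fam_exp (by positivity)
    refine h3.trans ?_
    have h4 : (9 : ℝ) ^ 262 / (9 ^ (268 + a) * G) * (24 * m * ℓ) =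
        (7200 / 9 ^ 6) * m * (ℓ ^ 3 / (9 ^ a * (M * (s * Real.sqrt s)))) := by
      rw [hGdef, show 268 + a = 262 + (6 + a) by omega, pow_add, pow_add]
      have h9 : (9 : ℝ) ^ 262 ≠ 0 := by positivity
      have h96 : (9 : ℝ) ^ 6 ≠ 0 := by positivity
      have h9a : (9 : ℝ) ^ a ≠ 0 := by positivity
      generalize (9 : ℝ) ^ 262 = X at *
      generalize (9 : ℝ) ^ 6 = Y at *
      generalize (9 : ℝ) ^ a = Z at *
      field_simp
      ring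
    rw [h4]
    have h5 : ℓ ^ 3 / (9 ^ a * (M * (s * Real.sqrt s))) ≤ 8 := by
      rw [div_le_iff₀ (by positivity)]
      refine hℓ3.trans ?_
      have h6 : (8 : ℝ) ^ a ≤ 9 ^ a := by gcongr; norm_num
      nlinarith
    have h7 : (7200 / 9 ^ 6 : ℝ) * m * (ℓ ^ 3 / (9 ^ a * (M * (s * Real.sqrt s)))) ≤
        (7200 / 9 ^ 6 : ℝ) * m * 8 := by gcongr
    refine h7.trans ?_
    have h8 : (7200 / 9 ^ 6 : ℝ) * 8 ≤ 1 / 2 := by norm_num
    nlinarith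
  -- the main inequality
  have hmain : (m : ℝ) ≤ (269 + a) * R.card + m / 2 := by
    by_contra hcon
    push Not at hcon
    obtain ⟨T, hT⟩ : ∃ T : Finset (Σ _ : ℤ, ℕ), T = R.sigma fun j => range (Kf j + 1) := ⟨_, rfl⟩
    have hcardT : Fintype.card T < m := by
      rw [Fintype.card_coe, hT, card_sigma]
      have h2 : ∑ j ∈ R, ((Kf j : ℝ) + 1) < m := by
        refine lt_of_le_of_lt hK2 ?_
        have h4 : (((268 + a : ℕ) : ℝ) + 1) = 269 + a := by push_cast; ring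
        rw [h4]
        exact lt_of_le_of_lt (add_le_add (le_refl _) hE) hcon
      have h3 : ((∑ j ∈ R, (range (Kf j + 1)).card : ℕ) : ℝ) < m := by
        simpa using h2
      exact_mod_cast h3
    obtain ⟨c, hc0, hc⟩ := Fam_kernel hcardT fun (k : T) i => ∑ q, ψ i q *
      ((((k.1.1 : ℝ) * L - r q - b q) / Real.sqrt s) ^ k.1.2 *
        Real.exp (-((((k.1.1 : ℝ) * L - r q - b q) / Real.sqrt s) ^ 2) / 2))
    have hcker : ∀ v ∈ V, M ≤ load b r s v → ∀ k ≤ Kf (v / L),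
      ∑ q, (∑ i, c i * ψ i q) * (((((v / L : ℤ) : ℝ) * L - r q - b q) / Real.sqrt s) ^ k *
        Real.exp (-((((v / L : ℤ) : ℝ) * L - r q - b q) / Real.sqrt s) ^ 2 / 2)) = 0 := by
      intro v hv hvM k hk
      have hmem : (⟨v / L, k⟩ : Σ _ : ℤ, ℕ) ∈ T := by
        rw [hT, mem_sigma]
        refine ⟨?_, ?_⟩
        · rw [hRdef, mem_image]
          exact ⟨v, by rw [mem_filter]; exact ⟨hv, hvM⟩, rfl⟩
        · rw [mem_range]; exact Nat.lt_succ_of_le hk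
      have h2 := hc ⟨⟨v / L, k⟩, hmem⟩
      dsimp only at h2
      rw [← h2]
      simp only [sum_mul, mul_sum]
      rw [sum_comm]
      apply sum_congr rfl; intro i _
      apply sum_congr rfl; intro q _
      ring
    have hker := q_kernel hM0 hs hG0.le V b r L hL hL2 ψ hsep h1 (T := 3 * ℓ)
      (fun i => by
        have h2 := hnz i
        have h3 : ((nz (ψ i) : ℕ) : ℝ) ≤ ((3 * (2 ^ a * w) : ℕ) : ℝ) := by exact_mod_cast h2
        push_cast at h3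
        rw [hℓ]; exact h3) S hS Kf (fun j => by
          have h2 := hK1 j
          rw [hAj] at h2
          exact h2) c hcker
    have hcoef : 90 * G * (3 * ℓ) / (M * (s * Real.sqrt s)) = 9 / 10 / ℓ := by
      rw [hGdef]
      field_simp
      norm_num
    rw [hcoef] at hker
    have hdx := hd fun q => ∑ i, c i * ψ i q
    have hsum0 : 0 < ∑ i, (c i) ^ 2 := by
      have h2 : ∃ i, c i ≠ 0 := by
        by_contra h; push Not at h; exact hc0 (funext h)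
      obtain ⟨i, hi⟩ := h2
      have h3 : 0 < (c i) ^ 2 := by positivity
      exact lt_of_lt_of_le h3 (single_le_sum (f := fun i => (c i) ^ 2)
        (fun j _ => sq_nonneg _) (mem_univ i))
    -- separated supports
    have hpt : ∀ q, (∑ i, c i * ψ i q) ^ 2 = ∑ i, (c i) ^ 2 * (ψ i q) ^ 2 := by
      intro q
      apply Fam_sq c fun i => ψ i q
      intro i j hij
      by_contra hcon2
      push Not at hcon2
      rcases hsep i j hij q q hcon2.1 hcon2.2 with h2 | h2 <;> omega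
    have hedge : ∀ i : Fin N, (∑ j, c j * ψ j i.succ - ∑ j, c j * ψ j i.castSucc) ^ 2 =
        ∑ j, (c j) ^ 2 * (ψ j i.succ - ψ j i.castSucc) ^ 2 := by
      intro i
      have h2 : ∑ j, c j * ψ j i.succ - ∑ j, c j * ψ j i.castSucc =
          ∑ j, c j * (ψ j i.succ - ψ j i.castSucc) := by
        rw [← sum_sub_distrib]
        apply sum_congr rfl; intro j _; ring
      rw [h2]
      apply Fam_sq c fun j => ψ j i.succ - ψ j i.castSucc
      intro j k hjk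
      by_contra hcon2
      push Not at hcon2
      obtain ⟨hj, hk⟩ := hcon2
      have e1 : ∃ p : Fin (N + 1), (p = i.succ ∨ p = i.castSucc) ∧ ψ j p ≠ 0 := by
        by_contra h
        push Not at h
        exact hj (by rw [h _ (Or.inl rfl), h _ (Or.inr rfl), sub_zero])
      have e2 : ∃ p : Fin (N + 1), (p = i.succ ∨ p = i.castSucc) ∧ ψ k p ≠ 0 := by
        by_contra h
        push Not at h
        exact hk (by rw [h _ (Or.inl rfl), h _ (Or.inr rfl), sub_zero])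
      obtain ⟨p, hp, hp0⟩ := e1
      obtain ⟨p', hp', hp0'⟩ := e2
      have e3 := hsep j k hjk p p' hp0 hp0'
      rcases hp with rfl | rfl <;> rcases hp' with rfl | rfl <;>
        simp only [Fin.val_succ, Fin.val_castSucc] at e3 <;> omega
    have hlhs : ∑ q, d q * (∑ i, c i * ψ i q) ^ 2 =
        ∑ i, (c i) ^ 2 * ∑ q, d q * (ψ i q) ^ 2 := by
      simp only [hpt, mul_sum]
      rw [sum_comm]
      apply sum_congr rfl; intro i _
      apply sum_congr rfl; intro q _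
      ring
    have hdirx : dirE (fun q => ∑ i, c i * ψ i q) = ∑ i, (c i) ^ 2 * dirE (ψ i) := by
      unfold dirE
      simp only [hedge, mul_sum]
      rw [sum_comm]
    have hbig : ∑ i, (c i) ^ 2 * (9 / ℓ + e * (ψ i 0) ^ 2) ≤
        ∑ i, (c i) ^ 2 * (8 / ℓ + e * (ψ i 0) ^ 2) + 9 / 10 / ℓ * ∑ i, (c i) ^ 2 := by
      calc ∑ i, (c i) ^ 2 * (9 / ℓ + e * (ψ i 0) ^ 2)
          ≤ ∑ i, (c i) ^ 2 * ∑ q, d q * (ψ i q) ^ 2 :=
            sum_le_sum fun i _ => mul_le_mul_of_nonneg_left (hD i) (sq_nonneg _)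
        _ = ∑ q, d q * (∑ i, c i * ψ i q) ^ 2 := hlhs.symm
        _ ≤ Qf 1 e M V b r s (fun q => ∑ i, c i * ψ i q) := hdx
        _ = ∑ i, (c i) ^ 2 * (dirE (ψ i) + e * (ψ i 0) ^ 2) + 1 / 2 *
            ∑ v ∈ V, tent M (load b r s v) *
              (grad1 b r s v fun q => ∑ i, c i * ψ i q) ^ 2 := by
            unfold Qf
            rw [hdirx, hpt 0, one_mul]
            have h2 : ∑ i, (c i) ^ 2 * (dirE (ψ i) + e * (ψ i 0) ^ 2) =
                ∑ i, (c i) ^ 2 * dirE (ψ i) + e * ∑ i, (c i) ^ 2 * (ψ i 0) ^ 2 := by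
              rw [mul_sum, ← sum_add_distrib]
              apply sum_congr rfl; intro i _; ring
            rw [h2]
        _ ≤ _ := by
            apply add_le_add _ hker
            apply sum_le_sum
            intro i _
            apply mul_le_mul_of_nonneg_left _ (sq_nonneg _)
            linarith [hdir i]
    have hfin : 1 / 10 / ℓ * ∑ i, (c i) ^ 2 ≤ 0 := by
      have h2 : ∑ i, (c i) ^ 2 * (9 / ℓ + e * (ψ i 0) ^ 2) =
          ∑ i, (c i) ^ 2 * (8 / ℓ + e * (ψ i 0) ^ 2) + 1 / ℓ * ∑ i, (c i) ^ 2 := by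
        rw [mul_sum, ← sum_add_distrib]
        apply sum_congr rfl; intro i _
        field_simp
        ring
      rw [h2] at hbig
      have h3 : 1 / ℓ * ∑ i, (c i) ^ 2 ≤ 9 / 10 / ℓ * ∑ i, (c i) ^ 2 := by linarith
      have h4 : 1 / ℓ * ∑ i, (c i) ^ 2 = 9 / 10 / ℓ * ∑ i, (c i) ^ 2 +
          1 / 10 / ℓ * ∑ i, (c i) ^ 2 := by
        field_simp; norm_num
      linarith
    have hpos : 0 < 1 / 10 / ℓ * ∑ i, (c i) ^ 2 := by positivity
    linarith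
  have ha0 : (0 : ℝ) ≤ a := Nat.cast_nonneg a
  have h2 : (m : ℝ) ≤ 2 * (269 + a) * R.card := by linarith
  calc (m : ℝ) ≤ 2 * (269 + a) * R.card := h2
    _ ≤ 2 * (269 + a) * (10 * (N + 1) / (M * Real.sqrt s)) := by gcongr
    _ = 20 * (269 + a) * (N + 1) / (M * Real.sqrt s) := by ring

end Pool.Agent.Lib.HAP
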