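import Pool.Agent.Lib.HAP.B.DSumB
import Pool.Agent.Lib.HAP.Descend

/-!
MODULE B.HeightsB: existence of heights `r` (copy of `HAP/Heights.lean` with `dsumB`).

PROOF.  `M = μ^3`, `e = 1/(N+1)^2`, `s₀ = ((N+1)/μ^3)^2 ≥ 1`, `r₀ q = q`, `B₀ = 0`, exactly as in `Heights`.
For `1 ≤ s ≤ s₀`: `μ^3 √s ≤ N + 1`.  `dsumB` gives `hQ` of `descend` with `κ = 12 * 10^8 (N+1)/μ^4`, `c₀ = e`;
`c₀ s₀ = 1/μ^6 ≤ 1`, `log s₀ ≤ 2 log (N+1)`.  So
`Psi r 1 ≤ 24 * 10^8 (N+1) log(N+1)/μ^4 + 2`; all three summands of `Psi` are nonnegative.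
-/

set_option autoImplicit false

namespace Pool.Agent.Lib.HAP

open Finset

private theorem HeightsB_gau_nonneg (t x : ℝ) : 0 ≤ gau t x := by
  unfold gau
  positivity

private theorem HeightsB_gau_le (t x : ℝ) (ht : 0 < t) : gau t x ≤ 1 / √(2 * Real.pi * t) := by
  unfold gau
  refine div_le_div_of_nonneg_right ?_ (Real.sqrt_nonneg _)
  rw [Real.exp_le_one_iff]
  have : 0 ≤ x ^ 2 / (2 * t) := by positivity
  have h : -x ^ 2 / (2 * t) = -(x ^ 2 / (2 * t)) := by ring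
  rw [h]
  linarith

private theorem HeightsB_load_nonneg {N : ℕ} (b r : Fin (N + 1) → ℝ) (s v : ℝ) :
    0 ≤ load b r s v := sum_nonneg fun _ _ => HeightsB_gau_nonneg _ _

theorem heightsB {N : ℕ} {μ : ℝ} (hμ : 1 ≤ μ) (hμN : μ ^ 3 ≤ N + 1) (V : Finset ℤ)
    (b : Fin (N + 1) → ℝ) :
    ∃ r : Fin (N + 1) → ℝ,
      slopeE r ≤ 24 * 10 ^ 8 * (N + 1) * Real.log (N + 1) / μ ^ 4 + 3 ∧
      (r 0) ^ 2 ≤ (N + 1) ^ 2 * (24 * 10 ^ 8 * (N + 1) * Real.log (N + 1) / μ ^ 4 + 3) ∧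
      ∑ v ∈ V, FF (μ ^ 3) (load b r 1 v) ≤
        24 * 10 ^ 8 * (N + 1) * Real.log (N + 1) / μ ^ 4 + 3 := by
  have hμ0 : 0 < μ := by linarith
  have hM : 0 < μ ^ 3 := by positivity
  have hN : (0 : ℝ) < N + 1 := by positivity
  set e : ℝ := 1 / ((N : ℝ) + 1) ^ 2 with he
  have he0 : 0 < e := by positivity
  set s₀ : ℝ := (((N : ℝ) + 1) / μ ^ 3) ^ 2 with hs₀
  have hone : 1 ≤ ((N : ℝ) + 1) / μ ^ 3 := by
    rw [le_div_iff₀ hM, one_mul]
    exact hμN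
  have hs1 : 1 ≤ s₀ := by
    rw [hs₀]
    exact one_le_pow₀ hone
  have hs0 : 0 < s₀ := by linarith
  set κ : ℝ := 12 * 10 ^ 8 * ((N : ℝ) + 1) / μ ^ 4 with hκ
  have hκ0 : 0 ≤ κ := by positivity
  -- the start
  have hstart : Psi 1 e (μ ^ 3) V b (fun q => (q.val : ℝ)) s₀ ≤ 0 := by
    have h1 : slopeE (fun q : Fin (N + 1) => (q.val : ℝ)) = 0 := by
      unfold slopeE
      refine sum_eq_zero fun i _ => ?_
      simp only [Fin.val_succ, Fin.val_castSucc, Nat.cast_add, Nat.cast_one]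
      ring
    have h2 : ∀ v ∈ V, FF (μ ^ 3) (load b (fun q => (q.val : ℝ)) s₀ (v : ℝ)) = 0 := by
      intro v _
      refine FF_eq_zero hM (HeightsB_load_nonneg _ _ _ _) ?_
      have h3 : load b (fun q => (q.val : ℝ)) s₀ (v : ℝ) ≤
          ∑ _q : Fin (N + 1), 1 / √(2 * Real.pi * s₀) :=
        sum_le_sum fun q _ => HeightsB_gau_le _ _ hs0
      refine h3.trans ?_
      rw [sum_const, card_univ, Fintype.card_fin, nsmul_eq_mul]
      have h4 : ((N : ℝ) + 1) / μ ^ 3 ≤ √(2 * Real.pi * s₀) := by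
        apply Real.le_sqrt_of_sq_le
        rw [← hs₀]
        have := Real.pi_gt_three
        nlinarith
      have h5 : 0 < √(2 * Real.pi * s₀) := by
        have := Real.pi_pos
        positivity
      rw [Nat.cast_add, Nat.cast_one, mul_one_div, div_le_iff₀ h5]
      rw [div_le_iff₀ hM] at h4
      linarith
    unfold Psi
    rw [h1, sum_eq_zero h2]
    simp
  obtain ⟨r, hr⟩ := descend (A := 1) one_pos he0 hM V b hs1 hκ0 he0.le
    (fun s h1 h2 r d hd => dsumB he0.le hμ h1 (by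
      have h3 : √s ≤ ((N : ℝ) + 1) / μ ^ 3 := by
        rw [Real.sqrt_le_iff]
        exact ⟨by positivity, h2⟩
      rw [le_div_iff₀ hM] at h3
      linarith) V b r d hd) (fun q => (q.val : ℝ)) hstart
  have hbound : 0 + κ * Real.log s₀ + e * s₀ + 1 ≤
      24 * 10 ^ 8 * (N + 1) * Real.log (N + 1) / μ ^ 4 + 3 := by
    have hlog0 : 0 ≤ Real.log s₀ := Real.log_nonneg hs1
    have h2 : Real.log s₀ ≤ 2 * Real.log (N + 1) := by
      rw [hs₀, Real.log_pow, Nat.cast_ofNat]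
      refine mul_le_mul_of_nonneg_left ?_ (by norm_num)
      refine Real.log_le_log (by positivity) ?_
      exact div_le_self hN.le (one_le_pow₀ hμ)
    have h3 : e * s₀ ≤ 1 := by
      rw [he, hs₀, div_pow]
      have h4 : (1 / ((N : ℝ) + 1) ^ 2) * (((N : ℝ) + 1) ^ 2 / (μ ^ 3) ^ 2) =
          1 / (μ ^ 3) ^ 2 := by
        field_simp
      rw [h4, div_le_iff₀ (by positivity)]
      have : 1 ≤ (μ ^ 3) ^ 2 := one_le_pow₀ (one_le_pow₀ hμ)
      linarith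
    have h4 : κ * Real.log s₀ ≤ κ * (2 * Real.log (N + 1)) :=
      mul_le_mul_of_nonneg_left h2 hκ0
    have h5 : κ * (2 * Real.log (N + 1)) =
        24 * 10 ^ 8 * (N + 1) * Real.log (N + 1) / μ ^ 4 := by
      rw [hκ]
      ring
    rw [h5] at h4
    linarith
  have hr' := hr.trans hbound
  set B : ℝ := 24 * 10 ^ 8 * (N + 1) * Real.log (N + 1) / μ ^ 4 + 3 with hB
  unfold Psi at hr'
  have p1 : 0 ≤ slopeE r := sum_nonneg fun _ _ => sq_nonneg _
  have p2 : 0 ≤ e * (r 0) ^ 2 := by positivity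
  have p3 : 0 ≤ ∑ v ∈ V, FF (μ ^ 3) (load b r 1 v) :=
    sum_nonneg fun v _ => FF_nonneg hM (HeightsB_load_nonneg _ _ _ _)
  refine ⟨r, by linarith, ?_, by linarith⟩
  have h1 : e * (r 0) ^ 2 ≤ B := by linarith
  rw [he, one_div_mul_eq_div, div_le_iff₀ (by positivity)] at h1
  linarith

end Pool.Agent.Lib.HAP
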