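import Pool.Agent.Lib.HAP.B.Fam

/-!
MODULE B.HvyC: the number of heavy windows of scale `a`.

PROOF.  `hvy_lt`: `9/(2^a w) > 0`, so `ψ` is not zero, `ψ q ≠ 0` for some `q ≤ N`;
`m (2^a w) ≤ q + 2^a w` gives `m ≤ q/(2^a w) + 1 ≤ N + 1`.
`hvy_card`: for every residue `c < 4` let `T_c` be the set of the `m ∈ HV e w d a` with `m % 4 = c`, enumerate
it (`Finset.equivFin` or `orderEmbOfFin`), and choose for each `m` the test function `ψ_m` of `Hvy`.  For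
`m < m'` in `T_c`: `m' ≥ m + 4`, so `q < (m+2) ℓ` on the support of `ψ_m` and `q' ≥ (m'-1) ℓ ≥ (m+3) ℓ` on that
of `ψ_m'` (`ℓ = 2^a w ≥ 1`), `q + 2 ≤ q'`: `Sep`.  `nz (ψ_m) ≤ 3 ℓ` (the support is contained in
`[(m-1) ℓ, (m+2) ℓ)`).  `fam_card` for each `T_c`, sum over the four residues.
-/

set_option autoImplicit false

namespace Pool.Agent.Lib.HAP

open Finset

theorem hvy_lt {N w a m : ℕ} {e : ℝ} (he : 0 ≤ e) (hw1 : 1 ≤ w) (d : Fin (N + 1) → ℝ)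
    (h : Hvy e w d a m) : m ∈ HV e w d a := by
  classical
  unfold HV
  rw [mem_filter, mem_range]
  refine ⟨?_, h⟩
  obtain ⟨ψ, h1, h2, h3, h4⟩ := h
  have hℓ : 1 ≤ 2 ^ a * w := Nat.one_le_iff_ne_zero.mpr (by positivity)
  have hℓr : (0 : ℝ) < 2 ^ a * w := by exact_mod_cast hℓ
  have hpos : 0 < ∑ q, d q * (ψ q) ^ 2 := by
    have : 0 < 9 / ((2 : ℝ) ^ a * w) := by positivity
    have : 0 ≤ e * (ψ 0) ^ 2 := by positivity
    linarith
  have hex : ∃ q, ψ q ≠ 0 := by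
    by_contra hcon
    push Not at hcon
    rw [Finset.sum_eq_zero] at hpos
    · exact lt_irrefl _ hpos
    · intro q _
      rw [hcon q]; ring
  obtain ⟨q, hq⟩ := hex
  have hq2 := (h2 q hq).1
  have hqN : q.val ≤ N := Nat.lt_succ_iff.mp q.isLt
  by_contra hcon
  push Not at hcon
  have h5 : (N + 2) * (2 ^ a * w) ≤ m * (2 ^ a * w) := Nat.mul_le_mul_right _ hcon
  have h6 : (N + 1) * 1 ≤ (N + 1) * (2 ^ a * w) := Nat.mul_le_mul_left _ hℓ
  have h7 : (N + 2) * (2 ^ a * w) = (N + 1) * (2 ^ a * w) + 2 ^ a * w := by ring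
  omega

private theorem hvyC_nz {N m ℓ : ℕ} (ψ : Fin (N + 1) → ℝ)
    (h : ∀ q, ψ q ≠ 0 → m * ℓ ≤ q.val + ℓ ∧ q.val < (m + 2) * ℓ) : nz ψ ≤ 3 * ℓ := by
  unfold nz
  have h1 : ((univ.filter fun q => ψ q ≠ 0).map Fin.valEmbedding).card
      ≤ (Finset.Ico (m * ℓ - ℓ) ((m + 2) * ℓ)).card := by
    apply Finset.card_le_card
    intro x hx
    rw [Finset.mem_map] at hx
    obtain ⟨q, hq, rfl⟩ := hx
    rw [Finset.mem_filter] at hq
    have := h q hq.2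
    rw [Finset.mem_Ico, Fin.valEmbedding_apply]
    omega
  rw [Finset.card_map, Nat.card_Ico] at h1
  refine h1.trans ?_
  have h2 : (m + 2) * ℓ = m * ℓ + 2 * ℓ := by ring
  rw [h2]
  omega

private theorem hvyC_res {N w : ℕ} {e μ s : ℝ} (hμ : 1 ≤ μ) (hs : 1 ≤ s) (hw1 : 1 ≤ w)
    (hw : (w : ℝ) ≤ 2 * μ * Real.sqrt s) (V : Finset ℤ)
    (b r d : Fin (N + 1) → ℝ)
    (hd : ∀ x : Fin (N + 1) → ℝ, ∑ q, d q * (x q) ^ 2 ≤ Qf 1 e (μ ^ 3) V b r s x) (a c : ℕ) :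
    ((((HV e w d a).filter fun m => m % 4 = c).card : ℕ) : ℝ)
      ≤ 20 * (269 + a) * (N + 1) / (μ ^ 3 * Real.sqrt s) := by
  classical
  set T := (HV e w d a).filter fun m => m % 4 = c with hT
  have hmem : ∀ i : Fin T.card, Hvy e w d a (T.orderEmbOfFin rfl i) ∧
      (T.orderEmbOfFin rfl i) % 4 = c := by
    intro i
    have h0 : ∀ x ∈ T, Hvy e w d a x ∧ x % 4 = c := by
      intro x hx
      rw [hT, Finset.mem_filter] at hx
      refine ⟨?_, hx.2⟩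
      have h2 := hx.1
      unfold HV at h2
      exact (Finset.mem_filter.mp h2).2
    exact h0 _ (Finset.orderEmbOfFin_mem T rfl i)
  choose ψ h1 h2 h3 h4 using fun i => (hmem i).1
  have hℓ : 1 ≤ 2 ^ a * w := Nat.one_le_iff_ne_zero.mpr (by positivity)
  have hkey : ∀ i j : Fin T.card, i < j → ∀ p q : Fin (N + 1), ψ i p ≠ 0 → ψ j q ≠ 0 →
      p.val + 2 ≤ q.val := by
    intro i j hij p q hp hq
    have hlt : T.orderEmbOfFin rfl i < T.orderEmbOfFin rfl j :=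
      (T.orderEmbOfFin rfl).strictMono hij
    have hi := (hmem i).2
    have hj := (hmem j).2
    have h5 := (h2 i p hp).2
    have h6 := (h2 j q hq).1
    have h7 : T.orderEmbOfFin rfl i + 4 ≤ T.orderEmbOfFin rfl j := by omega
    have h8 : (T.orderEmbOfFin rfl i + 4) * (2 ^ a * w)
        ≤ (T.orderEmbOfFin rfl j) * (2 ^ a * w) := Nat.mul_le_mul_right _ h7
    have h9 : (T.orderEmbOfFin rfl i + 4) * (2 ^ a * w)
        = (T.orderEmbOfFin rfl i + 2) * (2 ^ a * w) + 2 * (2 ^ a * w) := by ring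
    omega
  have hsep : Sep ψ := by
    intro i j hij p q hp hq
    rcases lt_or_gt_of_ne hij with hlt | hgt
    · exact Or.inl (hkey i j hlt p q hp hq)
    · exact Or.inr (hkey j i hgt q p hq hp)
  exact fam_card hμ hs hw1 hw V b r d hd ψ hsep h1
    (fun i => hvyC_nz (m := T.orderEmbOfFin rfl i) (ψ i) (h2 i)) h3 h4

theorem hvy_card {N w : ℕ} {e μ s : ℝ} (hμ : 1 ≤ μ) (hs : 1 ≤ s) (hw1 : 1 ≤ w)
    (hw : (w : ℝ) ≤ 2 * μ * Real.sqrt s) (V : Finset ℤ)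
    (b r d : Fin (N + 1) → ℝ)
    (hd : ∀ x : Fin (N + 1) → ℝ, ∑ q, d q * (x q) ^ 2 ≤ Qf 1 e (μ ^ 3) V b r s x) (a : ℕ) :
    ((HV e w d a).card : ℝ) ≤ 80 * (269 + a) * (N + 1) / (μ ^ 3 * Real.sqrt s) := by
  classical
  have h1 : (HV e w d a).card
      = ∑ c ∈ Finset.range 4, ((HV e w d a).filter fun m => m % 4 = c).card := by
    apply Finset.card_eq_sum_card_fiberwise
    intro m _
    simp only [Finset.coe_range, Set.mem_Iio]
    exact Nat.mod_lt _ (by norm_num)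
  rw [h1]
  push_cast
  have h2 : ∀ c ∈ Finset.range 4,
      ((((HV e w d a).filter fun m => m % 4 = c).card : ℕ) : ℝ)
        ≤ 20 * (269 + a) * (N + 1) / (μ ^ 3 * Real.sqrt s) := fun c _ =>
    hvyC_res hμ hs hw1 hw V b r d hd a c
  refine (Finset.sum_le_sum h2).trans ?_
  rw [Finset.sum_const, Finset.card_range]
  simp only [nsmul_eq_mul]
  apply le_of_eq
  push_cast
  ring

end Pool.Agent.Lib.HAP
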