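import Pool.Agent.Lib.HAP.B.HeightsB
import Pool.Agent.Lib.HAP.Rising
import Pool.Agent.Lib.HAP.LoadBad
import Pool.Agent.Lib.HAP.Choose
import Pool.Agent.Lib.HAP.PathG

/-!
MODULE B.LowerD: the combinatorial lower bound with parameters (copy of `HAP/LowerB.lean` with
`heightsB` in place of `heights`: `X = 24 * 10^8 (N+1) log(N+1)/μ^4 + 3`; there is no `K`).
-/

set_option autoImplicit false

namespace Pool.Agent.Lib.HAP

open Finset

private theorem lb_mono {m : ℕ} {x : ℕ → ℝ} (h : ∀ k < m, x k ≤ x (k + 1)) :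
    ∀ l, l ≤ m → ∀ k ≤ l, x k ≤ x l := by
  intro l
  induction l with
  | zero =>
    intro _ k hk
    have : k = 0 := by omega
    rw [this]
  | succ l ih =>
    intro hl k hk
    rcases Nat.lt_or_ge l k with h1 | h1
    · have : k = l + 1 := by omega
      rw [this]
    · exact (ih (by omega) k h1).trans (h l (by omega))

private theorem lb_round {R : ℤ} {y : ℝ} (h : |y| + 1 ≤ R) : round y ∈ Finset.Icc (-R) R := by
  have h1 := abs_sub_round y
  have h2 : |((round y : ℤ) : ℝ)| ≤ R := by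
    have h3 : |((round y : ℤ) : ℝ)| ≤ |y| + |y - round y| := by
      have h4 : ((round y : ℤ) : ℝ) = y - (y - round y) := by ring
      calc |((round y : ℤ) : ℝ)| = |y - (y - round y)| := by rw [← h4]
        _ ≤ |y| + |y - round y| := abs_sub _ _
    linarith
  rw [Finset.mem_Icc]
  have h5 := abs_le.1 h2
  constructor
  · have := h5.1
    exact_mod_cast this
  · have := h5.2
    exact_mod_cast this

theorem lower_paramB {n N : ℕ} (hNn : 4 * (N + 1) ≤ n) {μ : ℝ} (hμ : 1 ≤ μ)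
    (hN : 480000 * μ ^ 3 ≤ N + 1)
    (hX : 24 * 10 ^ 8 * (N + 1) * Real.log (N + 1) / μ ^ 4 + 3 ≤ (N + 1 : ℝ) / 200)
    (b : ℕ → ℤ) (hb : ∀ x x', x < n → x' < n → b x = b x' → x = x') :
    ∃ (m : ℕ) (j i : ℕ → ℕ), (N + 1 : ℝ) / (960000 * μ ^ 3) ≤ m + 1 ∧
      (∀ k l, k < l → l ≤ m → j k < j l) ∧
      (∀ k ≤ m, j k < n) ∧ (∀ k l, k < l → l < m → i k < i l) ∧ (∀ k < m, 2 * i k < n) ∧
      (∀ k < m, ∀ l < m, ∀ x, (x = j k ∨ x = j (k + 1)) → ∀ y, (y = j l ∨ y = j (l + 1)) →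
        (i k : ℤ) + b x = i l + b y → k = l ∧ x = y) := by
  classical
  set X : ℝ := 24 * 10 ^ 8 * (N + 1) * Real.log (N + 1) / μ ^ 4 + 3 with hXdef
  have hNpos : (0 : ℝ) < N + 1 := by positivity
  have hN0 : (0 : ℝ) ≤ N := by positivity
  have hμ3 : (1 : ℝ) ≤ μ ^ 3 := one_le_pow₀ hμ
  have hμN : μ ^ 3 ≤ N + 1 := by nlinarith
  have hN1 : (480000 : ℝ) ≤ N + 1 := by nlinarith
  -- the window
  set B : ℤ := ∑ q ∈ range (N + 1), |b q| with hB
  set R : ℤ := B + 10 * ((N : ℤ) + 1) ^ 2 + 10 with hR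
  set V : Finset ℤ := Finset.Icc (-R) R with hV
  set b' : Fin (N + 1) → ℝ := fun q => (b q.val : ℝ) with hb'
  obtain ⟨r, h1, h2, h3⟩ := heightsB hμ hμN V b'
  have hslope0 : 0 ≤ slopeE r := by
    unfold slopeE
    exact Finset.sum_nonneg fun i _ => sq_nonneg _
  have hX0 : 0 ≤ X := hslope0.trans h1
  have hsq : Real.sqrt (N * slopeE r) ≤ (N + 1) / 14 := by
    apply Real.sqrt_le_iff.2
    refine ⟨by positivity, ?_⟩
    have e1 : (N : ℝ) * slopeE r ≤ (N + 1) * ((N + 1) / 200) := by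
      apply mul_le_mul
      · linarith
      · exact h1.trans hX
      · exact hslope0
      · linarith
    nlinarith
  have hr0 : |r 0| ≤ ((N : ℝ) + 1) ^ 2 := by
    apply abs_le_of_sq_le_sq _ (by positivity)
    have e1 : X ≤ ((N : ℝ) + 1) ^ 2 := by nlinarith
    calc (r 0) ^ 2 ≤ (N + 1) ^ 2 * X := h2
      _ ≤ ((N : ℝ) + 1) ^ 2 * ((N : ℝ) + 1) ^ 2 := by
          apply mul_le_mul_of_nonneg_left e1 (by positivity)
      _ = (((N : ℝ) + 1) ^ 2) ^ 2 := by ring
  have hdr : ∀ p q : Fin (N + 1), p ≤ q →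
      |r q - r p - ((q.val : ℝ) - p.val)| ≤ (N + 1) / 14 := fun p q h =>
    (le_add_sqrt r p q h).trans hsq
  have hVr : ∀ q, round (r q + b' q) ∈ V := by
    intro q
    apply lb_round
    have e1 := hdr 0 q (Fin.zero_le q)
    have e2 : |(b q.val : ℝ)| ≤ (B : ℝ) := by
      have : |b q.val| ≤ B := by
        rw [hB]
        exact Finset.single_le_sum (f := fun q => |b q|) (fun i _ => abs_nonneg _)
          (Finset.mem_range.2 q.isLt)
      have h' : ((|b q.val| : ℤ) : ℝ) ≤ (B : ℝ) := by exact_mod_cast this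
      rwa [Int.cast_abs] at h'
    have e3 : (q.val : ℝ) ≤ N := by
      have := q.isLt
      have : q.val ≤ N := by omega
      exact_mod_cast this
    have e4 : (0 : ℝ) ≤ q.val := by positivity
    have e5 : |r q| ≤ |r 0| + N + (N + 1) / 14 := by
      have : r q = r 0 + (q.val : ℝ) + (r q - r 0 - ((q.val : ℝ) - ((0 : Fin (N + 1)).val : ℕ))) := by
        simp
      rw [this]
      refine (abs_add_le _ _).trans ?_
      have e6 : |r 0 + (q.val : ℝ)| ≤ |r 0| + N := by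
        refine (abs_add_le _ _).trans ?_
        rw [abs_of_nonneg e4]
        linarith
      linarith
    have e6 : |r q + b' q| ≤ |r q| + |(b q.val : ℝ)| := abs_add_le _ _
    have e7 : (R : ℝ) = (B : ℝ) + 10 * ((N : ℝ) + 1) ^ 2 + 10 := by
      rw [hR]; push_cast; ring
    rw [e7]
    nlinarith
  set bad1 : Finset (Fin (N + 1)) := univ.filter fun q : Fin (N + 1) => ∃ q' : Fin (N + 1), q < q' ∧
      r q' - r q < ((q'.val : ℝ) - q.val) / 2 with hbad1
  set bad2 : Finset (Fin (N + 1)) := univ.filter fun q : Fin (N + 1) => 40 * μ ^ 3 ≤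
      ((univ.filter fun q' : Fin (N + 1) => |(r q' + b' q') - (r q + b' q)| ≤ 1).card : ℝ) with hbad2
  have hc1 : (bad1.card : ℝ) ≤ 4 * X := (rising r).trans (by linarith)
  have hc2 : (bad2.card : ℝ) ≤ 6 * X :=
    (load_bad (by linarith : (0 : ℝ) < μ ^ 3) V b' r hVr).trans (by linarith)
  set G : Finset ℕ := ((bad1 ∪ bad2)ᶜ).map Fin.valEmbedding with hGdef
  have hG : G ⊆ range (N + 1) := by
    intro q hq
    rw [hGdef, Finset.mem_map] at hq
    obtain ⟨a, _, rfl⟩ := hq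
    exact Finset.mem_range.2 a.isLt
  have hGc : 10 * ((range (N + 1)) \ G).card ≤ N + 1 := by
    have e1 : (range (N + 1)) \ G ⊆ (bad1 ∪ bad2).map Fin.valEmbedding := by
      intro q hq
      rw [Finset.mem_sdiff, Finset.mem_range] at hq
      rw [Finset.mem_map]
      refine ⟨⟨q, hq.1⟩, ?_, rfl⟩
      by_contra hcon
      apply hq.2
      rw [hGdef, Finset.mem_map]
      exact ⟨⟨q, hq.1⟩, Finset.mem_compl.2 hcon, rfl⟩
    have e2 : ((range (N + 1)) \ G).card ≤ bad1.card + bad2.card := by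
      refine (Finset.card_le_card e1).trans ?_
      rw [Finset.card_map]
      exact Finset.card_union_le _ _
    have e3 : (((range (N + 1)) \ G).card : ℝ) ≤ 10 * X := by
      have : (((range (N + 1)) \ G).card : ℝ) ≤ (bad1.card : ℝ) + bad2.card := by exact_mod_cast e2
      linarith
    have e4 : (10 : ℝ) * ((range (N + 1)) \ G).card ≤ N + 1 := by linarith
    exact_mod_cast e4
  set rr : ℕ → ℝ := fun q => if h : q < N + 1 then r ⟨q, h⟩ else 0 with hrr
  have hrrv : ∀ q (h : q < N + 1), rr q = r ⟨q, h⟩ := fun q h => by rw [hrr]; simp [h]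
  set W : ℕ → ℝ := fun q => rr q + b q with hW
  set κ₁ : ℕ := ⌈40 * μ ^ 3⌉₊ with hκ₁
  have hGm : ∀ q ∈ G, ∃ h : q < N + 1, (⟨q, h⟩ : Fin (N + 1)) ∉ bad1 ∧ (⟨q, h⟩ : Fin (N + 1)) ∉ bad2 := by
    intro q hq
    rw [hGdef, Finset.mem_map] at hq
    obtain ⟨a, ha, rfl⟩ := hq
    rw [Finset.mem_compl, Finset.mem_union, not_or] at ha
    exact ⟨a.isLt, ha⟩
  have hκ : ∀ q ∈ G, ((range (N + 1)).filter fun q' => |W q' - W q| ≤ 1).card ≤ κ₁ := by
    intro q hq
    obtain ⟨hqN, _, hq2⟩ := hGm q hq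
    rw [hbad2, Finset.mem_filter, not_and] at hq2
    have hq3 := not_le.1 (hq2 (Finset.mem_univ _))
    have e1 : ((range (N + 1)).filter fun q' => |W q' - W q| ≤ 1) ⊆
        (univ.filter fun q' : Fin (N + 1) => |(r q' + b' q') - (r ⟨q, hqN⟩ + b' ⟨q, hqN⟩)| ≤ 1).map
          Fin.valEmbedding := by
      intro q' hq'
      rw [Finset.mem_filter, Finset.mem_range] at hq'
      rw [Finset.mem_map]
      refine ⟨⟨q', hq'.1⟩, ?_, rfl⟩
      rw [Finset.mem_filter]
      refine ⟨Finset.mem_univ _, ?_⟩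
      have := hq'.2
      simp only [hW] at this
      rw [hrrv q' hq'.1, hrrv q hqN] at this
      exact this
    have e2 := Finset.card_le_card e1
    rw [Finset.card_map] at e2
    have e3 : (((range (N + 1)).filter fun q' => |W q' - W q| ≤ 1).card : ℝ) < 40 * μ ^ 3 := by
      have : (((range (N + 1)).filter fun q' => |W q' - W q| ≤ 1).card : ℝ) ≤
          ((univ.filter fun q' : Fin (N + 1) =>
            |(r q' + b' q') - (r ⟨q, hqN⟩ + b' ⟨q, hqN⟩)| ≤ 1).card : ℝ) := by exact_mod_cast e2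
      linarith
    have e4 : (((range (N + 1)).filter fun q' => |W q' - W q| ≤ 1).card : ℝ) < κ₁ :=
      lt_of_lt_of_le e3 (Nat.le_ceil _)
    have : ((range (N + 1)).filter fun q' => |W q' - W q| ≤ 1).card < κ₁ := by exact_mod_cast e4
    omega
  set κ : ℕ := 24 * κ₁ + 1 with hκd
  set s : ℕ := 60 * κ with hs
  have hκ1r : (κ₁ : ℝ) ≤ 41 * μ ^ 3 := by
    have := Nat.ceil_lt_add_one (show (0 : ℝ) ≤ 40 * μ ^ 3 by linarith)
    linarith
  have hsr : (s : ℝ) ≤ 60000 * μ ^ 3 := by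
    rw [hs, hκd]; push_cast; nlinarith
  have hs1 : 1 ≤ s := by omega
  have hQ : 8 * s ≤ N + 1 := by
    have : (8 : ℝ) * s ≤ N + 1 := by nlinarith
    exact_mod_cast this
  obtain ⟨m, p, hm, hpG, hps, hcl⟩ := choose hs1 hQ W G hG hGc hκ
  have hpN : ∀ k ≤ m, p k < N + 1 := fun k hk => Finset.mem_range.1 (hG (hpG k hk))
  have hpm : ∀ k l, k < l → l ≤ m → p k < p l := fun k l h h' => by
    have := hps k l h h'
    omega
  set x : ℕ → ℝ := fun k => rr (p k) with hx
  have hxs : ∀ k < m, (s : ℝ) / 2 ≤ x (k + 1) - x k := by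
    intro k hk
    obtain ⟨hkN, hk1, _⟩ := hGm _ (hpG k (by omega))
    rw [hbad1, Finset.mem_filter, not_and] at hk1
    have hk2 := hk1 (Finset.mem_univ _)
    push Not at hk2
    have hk3 := hk2 ⟨p (k + 1), hpN (k + 1) (by omega)⟩ (by
      rw [Fin.lt_def]
      exact hpm k (k + 1) (by omega) (by omega))
    have e1 := hps k (k + 1) (by omega) (by omega)
    have e2 : (p k : ℝ) + s ≤ p (k + 1) := by exact_mod_cast e1
    have e3 : x (k + 1) = r ⟨p (k + 1), hpN (k + 1) (by omega)⟩ := hrrv _ _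
    have e4 : x k = r ⟨p k, hkN⟩ := hrrv _ _
    rw [e3, e4]
    have hk4 : (((p (k + 1) : ℕ) : ℝ) - ((p k : ℕ) : ℝ)) / 2 ≤
        r ⟨p (k + 1), hpN (k + 1) (by omega)⟩ - r ⟨p k, hkN⟩ := hk3
    linarith
  have hxm1 : ∀ k < m, x k ≤ x (k + 1) := fun k hk => by
    have := hxs k hk
    have : (0 : ℝ) ≤ s := by positivity
    linarith
  have hxm := lb_mono hxm1
  have hκ1' : 1 ≤ κ := by omega
  have hbinj : ∀ k l, k ≤ m → l ≤ m → b (p k) = b (p l) → k = l := by
    intro k l hk hl h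
    have e1 := hb (p k) (p l) (by have := hpN k hk; omega) (by have := hpN l hl; omega) h
    rcases lt_trichotomy k l with h' | h' | h'
    · have := hpm k l h' hl
      omega
    · exact h'
    · have := hpm l k h' hk
      omega
  obtain ⟨i, hi1, hi2⟩ := path_greedy hκ1' le_rfl p x hpm hxs b hbinj (by
    intro k hk
    exact hcl k hk)
  have hx0 : ∀ k ≤ m, x 0 ≤ x k := fun k hk => hxm k hk 0 (Nat.zero_le k)
  have hnn : ∀ k < m, 0 ≤ i k - ⌊x 0⌋ := by
    intro k hk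
    have e1 : (⌊x 0⌋ : ℝ) ≤ i k := (Int.floor_le _).trans ((hx0 k hk.le).trans (hi1 k hk).1)
    have e2 : ⌊x 0⌋ ≤ i k := by exact_mod_cast e1
    omega
  have hcast : ∀ k < m, (((i k - ⌊x 0⌋).toNat : ℕ) : ℤ) = i k - ⌊x 0⌋ := fun k hk =>
    Int.toNat_of_nonneg (hnn k hk)
  refine ⟨m, p, fun k => (i k - ⌊x 0⌋).toNat, ?_, hpm, ?_, ?_, ?_, ?_⟩
  · refine le_trans ?_ hm
    push_cast
    have hspos : (0 : ℝ) < 16 * s := by
      have : (1 : ℝ) ≤ s := by exact_mod_cast hs1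
      linarith
    apply div_le_div_of_nonneg_left hNpos.le hspos
    linarith
  · intro k hk
    have := hpN k hk
    omega
  · intro k l hkl hl
    have e1 : (i k : ℝ) < i l := by
      have a1 := (hi1 k (by omega)).2
      have a2 := hxm l (by omega) (k + 1) (by omega)
      have a3 := (hi1 l hl).1
      linarith
    have e2 : i k < i l := by exact_mod_cast e1
    have e3 := hcast k (by omega)
    have e4 := hcast l hl
    show (i k - ⌊x 0⌋).toNat < (i l - ⌊x 0⌋).toNat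
    omega
  · intro k hk
    have a1 := (hi1 k hk).2
    have a2 := hxm m le_rfl (k + 1) (by omega)
    have a3 : x m - x 0 ≤ N + (N + 1) / 14 := by
      have e1 : x m = r ⟨p m, hpN m le_rfl⟩ := hrrv _ _
      have e2 : x 0 = r ⟨p 0, hpN 0 (by omega)⟩ := hrrv _ _
      have e3 : p 0 ≤ p m := (hpm 0 m (by omega) le_rfl).le
      have e4 := hdr ⟨p 0, hpN 0 (by omega)⟩ ⟨p m, hpN m le_rfl⟩ (by
        rw [Fin.le_def]; exact e3)
      have e5 := (abs_le.1 e4).2
      have e6 : (p m : ℝ) ≤ N := by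
        have := hpN m le_rfl
        have : p m ≤ N := by omega
        exact_mod_cast this
      have e7 : (0 : ℝ) ≤ p 0 := by positivity
      rw [e1, e2]
      have e8 : r ⟨p m, hpN m le_rfl⟩ - r ⟨p 0, hpN 0 (by omega)⟩ -
        (((p m : ℕ) : ℝ) - ((p 0 : ℕ) : ℝ)) ≤ (N + 1) / 14 := e5
      linarith
    have a4 : (x 0 : ℝ) < ⌊x 0⌋ + 1 := Int.lt_floor_add_one _
    have a5 : ((i k - ⌊x 0⌋ : ℤ) : ℝ) < N + (N + 1) / 14 + 1 := by
      push_cast
      linarith
    have a6 : (2 : ℝ) * ((i k - ⌊x 0⌋ : ℤ) : ℝ) < 4 * (N + 1) := by linarith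
    have a7 : 2 * (i k - ⌊x 0⌋) < 4 * ((N : ℤ) + 1) := by exact_mod_cast a6
    have a8 := hcast k hk
    show 2 * (i k - ⌊x 0⌋).toNat < n
    omega
  · intro k hk l hl X' hX' Y hY h
    have e1 := hcast k hk
    have e2 := hcast l hl
    apply hi2 k hk l hl X' hX' Y hY
    have h' : (((i k - ⌊x 0⌋).toNat : ℕ) : ℤ) + b X' = ((i l - ⌊x 0⌋).toNat : ℕ) + b Y := h
    rw [e1, e2] at h'
    linarith

end Pool.Agent.Lib.HAP
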