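import Pool.Agent.Lib.HAP.B.LowerD

/-!
MODULE B.LowerE: the combinatorial lower bound, asymptotic form.

PROOF.  Let `n` be large, `l = log n ≥ 1`, `N + 1 = n / 4` (integer division; `N + 1 ≥ n/5`),
`μ = (10^12 l)^(1/4)`, so `μ^4 = 10^12 l`, `μ^3 = 10^9 l^(3/4)`.
`hX`: `24 * 10^8 log(N+1)/μ^4 ≤ 24/10^4 < 1/300`, and `3 ≤ (N+1)/1000`; `1/300 + 1/1000 ≤ 1/200`.
`hN`: `480000 μ^3 ≤ n/5` for large `n`.  `m + 1 ≥ (n/5)/(960000 * 10^9 l^(3/4)) = n/(4.8 * 10^15 l^(3/4))`, so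
`2 m ≥ n/(2.4 * 10^15 l^(3/4)) - 2 ≥ n/(10^16 l^(3/4))` for large `n`.
-/

set_option autoImplicit false

namespace Pool.Agent.Lib.HAP

open Finset

private theorem le_ev : ∃ x₀ : ℝ, ∀ x : ℝ, x₀ ≤ x →
    (10 : ℝ) ^ 19 * Real.log x ≤ x ∧ 1 ≤ Real.log x := by
  have h1 : ∀ᶠ x : ℝ in Filter.atTop, (10 : ℝ) ^ 19 * Real.log x ≤ x := by
    have h := Real.isLittleO_log_id_atTop.def (show (0 : ℝ) < 1 / 10 ^ 19 by positivity)
    filter_upwards [h, Filter.eventually_ge_atTop (1 : ℝ)] with x hx hx0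
    rw [Real.norm_of_nonneg (Real.log_nonneg hx0), id, Real.norm_of_nonneg (by linarith)] at hx
    linarith
  have h2 : ∀ᶠ x : ℝ in Filter.atTop, 1 ≤ Real.log x :=
    Real.tendsto_log_atTop.eventually_ge_atTop 1
  obtain ⟨x₀, hx₀⟩ := Filter.eventually_atTop.1 (h1.and h2)
  exact ⟨x₀, hx₀⟩

theorem lower_combB : ∃ n₀ : ℕ, ∀ n : ℕ, n₀ ≤ n → ∀ b : ℕ → ℤ,
    (∀ x x', x < n → x' < n → b x = b x' → x = x') →
    ∃ (m : ℕ) (j i : ℕ → ℕ),
      (n : ℝ) / (10 ^ 16 * (Real.log n) ^ ((3 : ℝ) / 4)) ≤ 2 * m ∧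
      (∀ k l, k < l → l ≤ m → j k < j l) ∧
      (∀ k ≤ m, j k < n) ∧ (∀ k l, k < l → l < m → i k < i l) ∧ (∀ k < m, 2 * i k < n) ∧
      (∀ k < m, ∀ l < m, ∀ x, (x = j k ∨ x = j (k + 1)) → ∀ y, (y = j l ∨ y = j (l + 1)) →
        (i k : ℤ) + b x = i l + b y → k = l ∧ x = y) := by
  obtain ⟨x₀, hx₀⟩ := le_ev
  refine ⟨max ⌈x₀⌉₊ 4000, fun n hn b hb => ?_⟩
  have hn1 : 4000 ≤ n := le_trans (le_max_right _ _) hn
  have hn2 : x₀ ≤ (n : ℝ) := by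
    refine (Nat.le_ceil x₀).trans ?_
    exact_mod_cast le_trans (le_max_left _ _) hn
  obtain ⟨ha, hb'⟩ := hx₀ n hn2
  set l : ℝ := Real.log n with hl
  have hnr : (4000 : ℝ) ≤ n := by exact_mod_cast hn1
  have hl0 : 0 < l := by linarith
  -- N
  obtain ⟨N, hN⟩ : ∃ N, N + 1 = n / 4 := ⟨n / 4 - 1, by omega⟩
  have hNn : 4 * (N + 1) ≤ n := by omega
  have hNr : (n : ℝ) / 5 ≤ N + 1 := by
    have : n ≤ 5 * (N + 1) := by omega
    have : (n : ℝ) ≤ 5 * (N + 1) := by exact_mod_cast this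
    linarith
  -- μ
  set μ : ℝ := (10 ^ 12 * l) ^ ((1 : ℝ) / 4) with hμd
  have hCL : 0 < 10 ^ 12 * l := by positivity
  have hCL1 : 1 ≤ 10 ^ 12 * l := by nlinarith
  have hμ1 : 1 ≤ μ := Real.one_le_rpow hCL1 (by norm_num)
  have hμ0 : 0 < μ := by linarith
  have hμ4 : μ ^ 4 = 10 ^ 12 * l := by
    rw [hμd, ← Real.rpow_natCast, ← Real.rpow_mul hCL.le]
    norm_num
  have hμ3 : μ ^ 3 = 10 ^ 9 * l ^ ((3 : ℝ) / 4) := by
    rw [hμd, ← Real.rpow_natCast, ← Real.rpow_mul hCL.le, Real.mul_rpow (by positivity) (by positivity)]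
    have e1 : ((10 : ℝ) ^ 12) ^ ((1 : ℝ) / 4 * (3 : ℕ)) = 10 ^ 9 := by
      rw [← Real.rpow_natCast, ← Real.rpow_mul (by norm_num), ← Real.rpow_natCast]
      norm_num
    rw [e1]
    norm_num
  have hNlow : (10 : ℝ) ^ 18 * l * 2 ≤ N + 1 := by linarith
  have hμ34 : μ ^ 3 ≤ 10 ^ 12 * l := by
    rw [← hμ4]
    exact pow_le_pow_right₀ hμ1 (by norm_num)
  have hNN : 480000 * μ ^ 3 ≤ N + 1 := by nlinarith
  have hXX : 24 * 10 ^ 8 * (N + 1) * Real.log (N + 1) / μ ^ 4 + 3 ≤ (N + 1 : ℝ) / 200 := by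
    have e1 : Real.log (N + 1) ≤ l := by
      apply Real.log_le_log (by positivity)
      have : N + 1 ≤ n := by omega
      exact_mod_cast this
    have e3 : 24 * 10 ^ 8 * (N + 1) * Real.log (N + 1) / μ ^ 4 ≤ (N + 1 : ℝ) / 400 := by
      rw [hμ4, div_le_div_iff₀ (by positivity) (by norm_num)]
      have e4 : 24 * 10 ^ 8 * ((N : ℝ) + 1) * Real.log (N + 1) * 400 =
        (24 * 10 ^ 8 * 400) * (N + 1) * Real.log (N + 1) := by ring
      rw [e4]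
      calc (24 * 10 ^ 8 * 400) * ((N : ℝ) + 1) * Real.log (N + 1) ≤
            (24 * 10 ^ 8 * 400) * ((N : ℝ) + 1) * l := by
            apply mul_le_mul_of_nonneg_left e1 (by positivity)
        _ ≤ (N + 1) * (10 ^ 12 * l) := by
            have : 0 ≤ ((N : ℝ) + 1) * l := by positivity
            nlinarith
    have e5 : (1200 : ℝ) ≤ N + 1 := by nlinarith
    linarith
  obtain ⟨m, j, i, hm, h1, h2, h3, h4, h5⟩ := lower_paramB hNn hμ1 hNN hXX b hb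
  refine ⟨m, j, i, ?_, h1, h2, h3, h4, h5⟩
  set D : ℝ := l ^ ((3 : ℝ) / 4) with hD
  have hD0 : 0 < D := by positivity
  have hDL : D ≤ l := by
    calc D ≤ l ^ (1 : ℝ) := Real.rpow_le_rpow_of_exponent_le hb' (by norm_num)
      _ = l := Real.rpow_one l
  rw [hμ3] at hm
  set y : ℝ := (n : ℝ) / D with hy
  have hy1 : (10 : ℝ) ^ 19 ≤ y := by
    rw [hy, le_div_iff₀ hD0]
    nlinarith
  have e1 : (n : ℝ) / (10 ^ 16 * D) = y / 10 ^ 16 := by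
    rw [hy, div_div, mul_comm]
  have e2 : y / (5 * (960000 * 10 ^ 9)) ≤ m + 1 := by
    refine le_trans ?_ hm
    have : y / (5 * (960000 * 10 ^ 9)) = ((n : ℝ) / 5) / (960000 * (10 ^ 9 * D)) := by
      rw [hy]; field_simp
    rw [this]
    exact div_le_div_of_nonneg_right hNr (by positivity)
  rw [e1]
  have e3 : y / (5 * (960000 * 10 ^ 9)) * (5 * (960000 * 10 ^ 9)) = y := by field_simp
  have e4 : y / 10 ^ 16 * 10 ^ 16 = y := by field_simp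
  nlinarith

end Pool.Agent.Lib.HAP
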