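import Pool.Agent.Lib.HAP.B.DefsB
import Pool.Agent.Lib.HAP.Orth
import Pool.Agent.Lib.HAP.Lat
import Pool.Agent.Lib.HAP.TentF

/-!
MODULE B.QKer: the load part of the form on the combinations of a family which are orthogonal to
`Kf j + 1` functionals of every cell `j`.

PROOF.  `X q = (v - r q - b q)/√s`, `ψ = ∑_i c_i ψ_i`, `c = j L` with `j = v / L` (integer division).  Only
`v ∈ V` with `M ≤ load ≤ 2M` contribute (`tent_eq_zero`), `tent ≤ 2/M`.  For such `v`: `|v - c| ≤ L ≤ 2 √s`,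
`orth` with `K = Kf j` and `hc` give
`|grad1 b r s v ψ| ≤ (E/s) ∑_q |ψ q| exp(-(3/8) X^2)`, `E = exp 262/3^(Kf j)`.
Let `β_i = ∑_q |ψ_i q| exp(-(3/8) X^2)`.  `∑_q |ψ q| exp(..) ≤ ∑_i |c_i| β_i` and by Cauchy-Schwarz
`(∑ |c_i| β_i)^2 ≤ (∑ c_i^2 β_i)(∑ β_i)`.  `∑_i β_i ≤ ∑_{q ∈ S} exp(-(3/8) X^2)` because for every `q` at most
one `ψ_i q` is not zero (`hsep`: two different functions have disjoint supports), `|ψ_i q| ≤ 1`, and then
`q ∈ S`.  `(c - W)^2 ≤ 2 (v - W)^2 + 2 (v - c)^2 ≤ 2 (v - W)^2 + 8 s`, `W = r q + b q`, so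
`exp(-(3/8) X^2) ≤ exp(3/2) exp(-(3/16)(c - W)^2/s)` and `∑_i β_i ≤ exp(3/2) A_j`, `A_j` the sum in `hG`.
`E^2 A_j ≤ G` (`(exp 262)^2 = exp 524`, `(3^K)^2 = 9^K`).  So the term of `v` is at most
`(1/2)(2/M)(1/s^2) exp(3/2) G ∑_i c_i^2 β_i(v)`.  Sum over `v ∈ V`:
`∑_v β_i(v) ≤ ∑_q |ψ_i q| ∑_v exp(-(v - W)^2/(4s)) ≤ nz (ψ_i) * 20 √s ≤ 20 T √s` (`sum_exp_le`, `3/8 ≥ 1/4`).
`20 exp(3/2) ≤ 90` (`exp 1 < 2.7182818286`, `exp(3/2) = exp 1 * exp(1/2)`, or `exp(3/2)^2 = exp 3 < 20.2`).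
-/

set_option autoImplicit false

namespace Pool.Agent.Lib.HAP

open Finset

private lemma QKer_exp : 20 * Real.exp (3 / 2) ≤ 90 := by
  have h1 := Real.exp_one_lt_d9
  have h2 : Real.exp (3 / 2) ^ 2 = Real.exp 1 ^ 3 := by
    rw [← Real.exp_nat_mul, ← Real.exp_nat_mul]; norm_num
  have h3 : Real.exp 1 ^ 3 ≤ 20.25 := by
    have h0 : 0 < Real.exp 1 := Real.exp_pos 1
    calc Real.exp 1 ^ 3 ≤ 2.7182818286 ^ 3 := by gcongr
      _ ≤ 20.25 := by norm_num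
  have h4 : Real.exp (3 / 2) ≤ 4.5 := by
    apply le_of_sq_le_sq _ (by norm_num : (0:ℝ) ≤ 4.5)
    rw [h2]; linarith
  linarith

private lemma QKer_supp {N m : ℕ} (ψ : Fin m → Fin (N + 1) → ℝ) (hsep : Sep ψ)
    (h1 : ∀ i q, |ψ i q| ≤ 1) (S : Finset (Fin (N + 1))) (hS : ∀ i q, ψ i q ≠ 0 → q ∈ S)
    (q : Fin (N + 1)) : ∑ i, |ψ i q| ≤ if q ∈ S then 1 else 0 := by
  by_cases h : ∃ i, ψ i q ≠ 0
  · obtain ⟨i, hi⟩ := h
    rw [if_pos (hS i q hi), sum_eq_single i]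
    · exact h1 i q
    · intro j _ hji
      by_contra hne
      have hj : ψ j q ≠ 0 := fun h0 => hne (by rw [h0, abs_zero])
      rcases hsep j i hji q q hj hi with h2 | h2 <;> omega
    · intro h; exact absurd (mem_univ i) h
  · push Not at h
    have : ∑ i, |ψ i q| = 0 := sum_eq_zero fun i _ => by rw [h i, abs_zero]
    rw [this]
    split_ifs <;> norm_num

private lemma QKer_beta {N m : ℕ} {s : ℝ} (hs : 1 ≤ s) (b r : Fin (N + 1) → ℝ)
    (ψ : Fin m → Fin (N + 1) → ℝ) (hsep : Sep ψ) (h1 : ∀ i q, |ψ i q| ≤ 1)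
    (S : Finset (Fin (N + 1))) (hS : ∀ i q, ψ i q ≠ 0 → q ∈ S) (v c0 : ℝ)
    (hv : |v - c0| ≤ 2 * Real.sqrt s) :
    ∑ i, ∑ q, |ψ i q| * Real.exp (-(3 / 8) * (v - r q - b q) ^ 2 / s) ≤
      Real.exp (3 / 2) * ∑ q ∈ S, Real.exp (-(3 / 16) * (c0 - (r q + b q)) ^ 2 / s) := by
  have hs0 : 0 < s := by linarith
  have hss : Real.sqrt s ^ 2 = s := Real.sq_sqrt hs0.le
  rw [sum_comm]
  have e : ∀ q, Real.exp (-(3 / 8) * (v - r q - b q) ^ 2 / s) ≤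
      Real.exp (3 / 2) * Real.exp (-(3 / 16) * (c0 - (r q + b q)) ^ 2 / s) := by
    intro q
    rw [← Real.exp_add]
    apply Real.exp_le_exp.mpr
    have h2 : (v - c0) ^ 2 ≤ 4 * s := by
      have := abs_nonneg (v - c0)
      have h3 : |v - c0| ^ 2 ≤ (2 * Real.sqrt s) ^ 2 := by gcongr
      rw [sq_abs, mul_pow, hss] at h3
      linarith
    have h4 : (c0 - (r q + b q)) ^ 2 ≤ 2 * (v - r q - b q) ^ 2 + 8 * s := by
      nlinarith [sq_nonneg ((v - r q - b q) + (v - c0))]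
    rw [div_le_iff₀ hs0, add_mul, div_mul_cancel₀ _ hs0.ne']
    linarith
  calc ∑ q, ∑ i, |ψ i q| * Real.exp (-(3 / 8) * (v - r q - b q) ^ 2 / s)
      = ∑ q, (∑ i, |ψ i q|) * Real.exp (-(3 / 8) * (v - r q - b q) ^ 2 / s) := by
        apply sum_congr rfl; intro q _; rw [sum_mul]
    _ ≤ ∑ q, (if q ∈ S then 1 else 0) *
        (Real.exp (3 / 2) * Real.exp (-(3 / 16) * (c0 - (r q + b q)) ^ 2 / s)) := by
        apply sum_le_sum; intro q _
        exact mul_le_mul (QKer_supp ψ hsep h1 S hS q) (e q) (Real.exp_pos _).le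
          (by split_ifs <;> norm_num)
    _ = _ := by
        rw [mul_sum]
        simp only [ite_mul, one_mul, zero_mul]
        rw [sum_ite_mem, univ_inter]

private lemma QKer_point {N m : ℕ} {s G : ℝ} (hs : 1 ≤ s)
    (b r : Fin (N + 1) → ℝ) (ψ : Fin m → Fin (N + 1) → ℝ) (hsep : Sep ψ)
    (h1 : ∀ i q, |ψ i q| ≤ 1) (S : Finset (Fin (N + 1))) (hS : ∀ i q, ψ i q ≠ 0 → q ∈ S)
    (c : Fin m → ℝ) (v c0 : ℝ) (hv : |v - c0| ≤ 2 * Real.sqrt s) (K : ℕ)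
    (hG : Real.exp 524 / 9 ^ K *
      ∑ q ∈ S, Real.exp (-(3 / 16) * (c0 - (r q + b q)) ^ 2 / s) ≤ G)
    (hc : ∀ k ≤ K, ∑ q, (∑ i, c i * ψ i q) * (((c0 - r q - b q) / Real.sqrt s) ^ k *
        Real.exp (-((c0 - r q - b q) / Real.sqrt s) ^ 2 / 2)) = 0) :
    (grad1 b r s v fun q => ∑ i, c i * ψ i q) ^ 2 ≤
      1 / s ^ 2 * (Real.exp (3 / 2) * G) * ∑ i, (c i) ^ 2 *
        ∑ q, |ψ i q| * Real.exp (-(3 / 8) * (v - r q - b q) ^ 2 / s) := by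
  have hs0 : 0 < s := by linarith
  have ho := orth b r (fun q => ∑ i, c i * ψ i q) hs0 K hv hc
  obtain ⟨β, hβ⟩ : ∃ β : Fin m → ℝ, β = fun i =>
    ∑ q, |ψ i q| * Real.exp (-(3 / 8) * (v - r q - b q) ^ 2 / s) := ⟨_, rfl⟩
  have hβ0 : ∀ i, 0 ≤ β i := by
    intro i; rw [hβ]; exact sum_nonneg fun q _ => by positivity
  have hB : ∑ q, |∑ i, c i * ψ i q| * Real.exp (-(3 / 8) * (v - r q - b q) ^ 2 / s) ≤
      ∑ i, |c i| * β i := by
    rw [hβ]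
    simp only [mul_sum]
    rw [sum_comm]
    apply sum_le_sum
    intro q _
    calc |∑ i, c i * ψ i q| * Real.exp (-(3 / 8) * (v - r q - b q) ^ 2 / s)
        ≤ (∑ i, |c i| * |ψ i q|) * Real.exp (-(3 / 8) * (v - r q - b q) ^ 2 / s) := by
          apply mul_le_mul_of_nonneg_right _ (Real.exp_pos _).le
          refine (abs_sum_le_sum_abs _ _).trans (le_of_eq ?_)
          apply sum_congr rfl; intro i _; rw [abs_mul]
      _ = _ := by rw [sum_mul]; apply sum_congr rfl; intro i _; ring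
  have hB0 : 0 ≤ ∑ q, |∑ i, c i * ψ i q| * Real.exp (-(3 / 8) * (v - r q - b q) ^ 2 / s) :=
    sum_nonneg fun q _ => by positivity
  have hCS : (∑ i, |c i| * β i) ^ 2 ≤ (∑ i, (c i) ^ 2 * β i) * ∑ i, β i := by
    apply sum_sq_le_sum_mul_sum_of_sq_le_mul
    · intro i _; exact mul_nonneg (sq_nonneg _) (hβ0 i)
    · intro i _; exact hβ0 i
    · intro i _; rw [mul_pow, sq_abs]; apply le_of_eq; ring
  have hsum := QKer_beta hs b r ψ hsep h1 S hS v c0 hv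
  have hsum' : ∑ i, β i ≤ Real.exp (3 / 2) *
      ∑ q ∈ S, Real.exp (-(3 / 16) * (c0 - (r q + b q)) ^ 2 / s) := by rw [hβ]; exact hsum
  have hE : (Real.exp 262 / 3 ^ K / s) ^ 2 = Real.exp 524 / 9 ^ K * (1 / s ^ 2) := by
    have h2 : Real.exp 262 ^ 2 = Real.exp 524 := by
      rw [← Real.exp_nat_mul]; norm_num
    rw [div_pow, div_pow, h2, ← pow_mul, mul_comm K 2, pow_mul]
    norm_num
    ring
  have hq : 0 ≤ ∑ i, (c i) ^ 2 * β i := sum_nonneg fun i _ => mul_nonneg (sq_nonneg _) (hβ0 i)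
  calc (grad1 b r s v fun q => ∑ i, c i * ψ i q) ^ 2
      = |grad1 b r s v fun q => ∑ i, c i * ψ i q| ^ 2 := (sq_abs _).symm
    _ ≤ (Real.exp 262 / 3 ^ K / s *
        ∑ q, |∑ i, c i * ψ i q| * Real.exp (-(3 / 8) * (v - r q - b q) ^ 2 / s)) ^ 2 := by
        gcongr
    _ ≤ (Real.exp 262 / 3 ^ K / s * ∑ i, |c i| * β i) ^ 2 := by
        gcongr
    _ = Real.exp 524 / 9 ^ K * (1 / s ^ 2) * (∑ i, |c i| * β i) ^ 2 := by rw [mul_pow, hE]
    _ ≤ Real.exp 524 / 9 ^ K * (1 / s ^ 2) * ((∑ i, (c i) ^ 2 * β i) * ∑ i, β i) := by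
        gcongr
    _ ≤ Real.exp 524 / 9 ^ K * (1 / s ^ 2) * ((∑ i, (c i) ^ 2 * β i) * (Real.exp (3 / 2) *
      ∑ q ∈ S, Real.exp (-(3 / 16) * (c0 - (r q + b q)) ^ 2 / s))) := by
        gcongr
    _ = 1 / s ^ 2 * (Real.exp (3 / 2) * (Real.exp 524 / 9 ^ K *
      ∑ q ∈ S, Real.exp (-(3 / 16) * (c0 - (r q + b q)) ^ 2 / s))) * (∑ i, (c i) ^ 2 * β i) := by
        ring
    _ ≤ 1 / s ^ 2 * (Real.exp (3 / 2) * G) * (∑ i, (c i) ^ 2 * β i) := by
        gcongr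
    _ = _ := by rw [hβ]

theorem q_kernel {N m : ℕ} {M s G T : ℝ} (hM : 0 < M) (hs : 1 ≤ s) (hG0 : 0 ≤ G) (V : Finset ℤ)
    (b r : Fin (N + 1) → ℝ) (L : ℕ) (hL : Real.sqrt s ≤ L) (hL2 : (L : ℝ) ≤ 2 * Real.sqrt s)
    (ψ : Fin m → Fin (N + 1) → ℝ) (hsep : Sep ψ) (h1 : ∀ i q, |ψ i q| ≤ 1)
    (hT : ∀ i, (nz (ψ i) : ℝ) ≤ T) (S : Finset (Fin (N + 1))) (hS : ∀ i q, ψ i q ≠ 0 → q ∈ S)
    (Kf : ℤ → ℕ)
    (hG : ∀ j : ℤ, Real.exp 524 / 9 ^ Kf j *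
      ∑ q ∈ S, Real.exp (-(3 / 16) * ((j : ℝ) * L - (r q + b q)) ^ 2 / s) ≤ G)
    (c : Fin m → ℝ)
    (hc : ∀ v ∈ V, M ≤ load b r s v → ∀ k ≤ Kf (v / L),
      ∑ q, (∑ i, c i * ψ i q) * (((((v / L : ℤ) : ℝ) * L - r q - b q) / Real.sqrt s) ^ k *
        Real.exp (-((((v / L : ℤ) : ℝ) * L - r q - b q) / Real.sqrt s) ^ 2 / 2)) = 0) :
    1 / 2 * ∑ v ∈ V, tent M (load b r s v) * (grad1 b r s v fun q => ∑ i, c i * ψ i q) ^ 2 ≤
      90 * G * T / (M * (s * Real.sqrt s)) * ∑ i, (c i) ^ 2 := by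
  have hs0 : 0 < s := by linarith
  have ht : 0 < Real.sqrt s := Real.sqrt_pos.mpr hs0
  have hss : Real.sqrt s ^ 2 = s := Real.sq_sqrt hs0.le
  have hL0 : (0 : ℝ) < L := lt_of_lt_of_le ht hL
  have hL0' : (0 : ℤ) < (L : ℤ) := by exact_mod_cast hL0
  have hpt : ∀ v ∈ V, tent M (load b r s v) * (grad1 b r s v fun q => ∑ i, c i * ψ i q) ^ 2 ≤
      2 / M * (1 / s ^ 2 * (Real.exp (3 / 2) * G) * ∑ i, (c i) ^ 2 *
        ∑ q, |ψ i q| * Real.exp (-(3 / 8) * (v - r q - b q) ^ 2 / s)) := by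
    intro v hv
    have hR : 0 ≤ 1 / s ^ 2 * (Real.exp (3 / 2) * G) * ∑ i, (c i) ^ 2 *
        ∑ q, |ψ i q| * Real.exp (-(3 / 8) * (v - r q - b q) ^ 2 / s) := by
      have : 0 ≤ ∑ i, (c i) ^ 2 *
        ∑ q, |ψ i q| * Real.exp (-(3 / 8) * (v - r q - b q) ^ 2 / s) :=
        sum_nonneg fun i _ => mul_nonneg (sq_nonneg _) (sum_nonneg fun q _ => by positivity)
      positivity
    rcases le_total (load b r s v) M with h | h
    · rw [tent_eq_zero hM (Or.inl h), zero_mul]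
      exact mul_nonneg (by positivity) hR
    · apply mul_le_mul (tent_le hM _) _ (sq_nonneg _) (by positivity)
      have hmod : (v : ℝ) - ((v / L : ℤ) : ℝ) * L = ((v % L : ℤ) : ℝ) := by
        have h2 := Int.emod_add_mul_ediv v L
        have h3 : ((v % L + L * (v / L) : ℤ) : ℝ) = (v : ℝ) := by rw [h2]
        push_cast at h3 ⊢
        linarith
      have h0 := Int.emod_nonneg v hL0'.ne'
      have h1' := Int.emod_lt_of_pos v hL0'
      have h0r : (0 : ℝ) ≤ ((v % L : ℤ) : ℝ) := by exact_mod_cast h0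
      have h1r : ((v % L : ℤ) : ℝ) ≤ L := by exact_mod_cast h1'.le
      have hvc : |(v : ℝ) - ((v / L : ℤ) : ℝ) * L| ≤ 2 * Real.sqrt s := by
        rw [hmod, abs_of_nonneg h0r]; linarith
      exact QKer_point hs b r ψ hsep h1 S hS c v _ hvc (Kf (v / L)) (hG _) (hc v hv h)
  have hsum : ∑ v ∈ V, tent M (load b r s v) *
      (grad1 b r s v fun q => ∑ i, c i * ψ i q) ^ 2 ≤
      2 / M * (1 / s ^ 2 * (Real.exp (3 / 2) * G) * ∑ i, (c i) ^ 2 *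
        (20 * Real.sqrt s * T)) := by
    refine (sum_le_sum hpt).trans ?_
    rw [← mul_sum, ← mul_sum, sum_comm]
    apply mul_le_mul_of_nonneg_left _ (by positivity)
    apply mul_le_mul_of_nonneg_left _ (by positivity)
    apply sum_le_sum
    intro i _
    rw [← mul_sum]
    apply mul_le_mul_of_nonneg_left _ (sq_nonneg _)
    rw [sum_comm]
    have h3 : ∀ q, ∑ v ∈ V, |ψ i q| * Real.exp (-(3 / 8) * (v - r q - b q) ^ 2 / s) ≤
        if ψ i q ≠ 0 then 20 * Real.sqrt s else 0 := by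
      intro q
      split_ifs with hq
      · have h4 := sum_exp_le V (r q + b q) hs
        rw [← mul_sum]
        have h5 : ∑ v ∈ V, Real.exp (-(3 / 8) * ((v : ℝ) - r q - b q) ^ 2 / s) ≤
            20 * Real.sqrt s := by
          refine le_trans (sum_le_sum fun v _ => ?_) h4
          apply Real.exp_le_exp.mpr
          rw [div_le_div_iff₀ hs0 (by positivity)]
          have : ((v : ℝ) - (r q + b q)) = v - r q - b q := by ring
          rw [this]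
          have h6 : 0 ≤ ((v : ℝ) - r q - b q) ^ 2 * s := by positivity
          nlinarith
        have h7 : 0 ≤ ∑ v ∈ V, Real.exp (-(3 / 8) * ((v : ℝ) - r q - b q) ^ 2 / s) :=
          sum_nonneg fun v _ => (Real.exp_pos _).le
        calc |ψ i q| * _ ≤ 1 * ∑ v ∈ V, Real.exp (-(3 / 8) * ((v : ℝ) - r q - b q) ^ 2 / s) :=
              mul_le_mul_of_nonneg_right (h1 i q) h7
          _ ≤ _ := by rw [one_mul]; exact h5
      · rw [not_not] at hq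
        simp [hq]
    refine (sum_le_sum fun q _ => h3 q).trans ?_
    rw [← sum_filter, sum_const, nsmul_eq_mul]
    have h8 := hT i
    unfold nz at h8
    nlinarith
  have hQ : 0 ≤ T * ∑ i, (c i) ^ 2 := by
    rw [mul_sum]
    apply sum_nonneg
    intro i _
    have : (0 : ℝ) ≤ T := (Nat.cast_nonneg _).trans (hT i)
    positivity
  have hR : 2 / M * (1 / s ^ 2 * (Real.exp (3 / 2) * G) * ∑ i, (c i) ^ 2 *
        (20 * Real.sqrt s * T)) =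
      2 * (20 * Real.exp (3 / 2)) * (G / (M * (s * Real.sqrt s)) * (T * ∑ i, (c i) ^ 2)) := by
    rw [← sum_mul]
    have : 1 / s ^ 2 = 1 / (s * Real.sqrt s ^ 2) := by rw [hss]; ring
    rw [this]
    field_simp
  calc 1 / 2 * ∑ v ∈ V, tent M (load b r s v) * (grad1 b r s v fun q => ∑ i, c i * ψ i q) ^ 2
      ≤ 1 / 2 * (2 / M * (1 / s ^ 2 * (Real.exp (3 / 2) * G) * ∑ i, (c i) ^ 2 *
        (20 * Real.sqrt s * T))) := by gcongr
    _ = (20 * Real.exp (3 / 2)) * (G / (M * (s * Real.sqrt s)) * (T * ∑ i, (c i) ^ 2)) := by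
        rw [hR]; ring
    _ ≤ 90 * (G / (M * (s * Real.sqrt s)) * (T * ∑ i, (c i) ^ 2)) := by
        apply mul_le_mul_of_nonneg_right QKer_exp
        positivity
    _ = _ := by ring

end Pool.Agent.Lib.HAP
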