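import Pool.Agent.Lib.HAP.B.DefsB

/-!
MODULE B.Scale: the dyadic intervals of variable length.

PROOF.  `Free H 0 m` holds (there is no `b` with `1 ≤ b ≤ 0`), so `Nat.findGreatest_spec` with `0` gives
`sc_free`; `Nat.findGreatest_le`; `Nat.le_findGreatest` (a free scale `≤ A` is `≤ sc`).
`sc_const`: let `a = sc k`.  `k'/2^a = k/2^a` is free at scale `a`, so `a ≤ sc k' =: a'`; then
`k'/2^a' = k/2^a'` (divide the equality further, `Nat.div_div_eq_div_mul`, `pow_add`), so `a'` is free for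
`k`, `a' ≤ a`.
`sc_succ`, second part: `a = sc k ≥ 1`.  If `(k+1)/2^a = k/2^a` use `sc_const`.  Otherwise with
`m = k/2^a`: `k + 1 = (m+1) 2^a`, `(k+1)/2^(a-1) = 2 (m+1)`, and `Free H (a-1) (2 (m+1))`: for `b ≤ a-1`
and `H b m'`, `Free H a m` gives `(m'+1) 2^b + 2*2^a ≤ m 2^a`, then
`(m'+1) 2^b + 2*2^(a-1) ≤ 2(m+1) 2^(a-1)`, or `(m+3) 2^a ≤ m' 2^b`, then
`(2(m+1)+3) 2^(a-1) ≤ (m+3) 2^a ≤ m' 2^b`.
First part: `a = sc (k+1) ≥ 1`, `m = (k+1)/2^a`.  If `k/2^a = m` use `sc_const`.  Otherwise `k + 1 = m 2^a`,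
`m ≥ 1`, `k/2^(a-1) = 2m - 1`, and `Free H (a-1) (2m-1)`: first case
`(m'+1) 2^b + 2*2^(a-1) ≤ m 2^a - 2^a ≤ (2m-1) 2^(a-1)`; second case `(2m-1+3) 2^(a-1) = (m+1) 2^a ≤ m' 2^b`.
`sc_light`: `Free H a m` with `b = a`, `m' = m`: both alternatives are false.
`sc_near`: `a + 1 ≤ A` is not free at `k/2^(a+1)` (`Nat.findGreatest_is_greatest`); push the negation.
-/

set_option autoImplicit false

namespace Pool.Agent.Lib.HAP

theorem sc_le (H : ℕ → ℕ → Prop) (A k : ℕ) : sc H A k ≤ A := by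
  classical
  exact Nat.findGreatest_le A

theorem sc_free (H : ℕ → ℕ → Prop) (A k : ℕ) : Free H (sc H A k) (k / 2 ^ sc H A k) := by
  classical
  have h0 : Free H 0 (k / 2 ^ 0) := by
    intro b m' h1 h2 _
    omega
  exact Nat.findGreatest_spec (P := fun a => Free H a (k / 2 ^ a)) (Nat.zero_le A) h0

private theorem Scale_le (H : ℕ → ℕ → Prop) (A k a : ℕ) (ha : a ≤ A)
    (h : Free H a (k / 2 ^ a)) : a ≤ sc H A k := by
  classical
  exact Nat.le_findGreatest (P := fun a => Free H a (k / 2 ^ a)) ha h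

theorem sc_const (H : ℕ → ℕ → Prop) (A k k' : ℕ)
    (h : k' / 2 ^ sc H A k = k / 2 ^ sc H A k) : sc H A k' = sc H A k := by
  have h1 : sc H A k ≤ sc H A k' := by
    refine Scale_le H A k' _ (sc_le H A k) ?_
    rw [h]
    exact sc_free H A k
  refine le_antisymm ?_ h1
  refine Scale_le H A k _ (sc_le H A k') ?_
  obtain ⟨d, hd⟩ := Nat.exists_eq_add_of_le h1
  have h2 : k / 2 ^ sc H A k' = k' / 2 ^ sc H A k' := by
    rw [hd, pow_add, ← Nat.div_div_eq_div_mul, ← Nat.div_div_eq_div_mul, h]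
  rw [h2]
  exact sc_free H A k'

theorem sc_succ (H : ℕ → ℕ → Prop) (A k : ℕ) :
    sc H A (k + 1) ≤ sc H A k + 1 ∧ sc H A k ≤ sc H A (k + 1) + 1 := by
  constructor
  · rcases Nat.eq_zero_or_pos (sc H A (k + 1)) with h0 | h0
    · omega
    obtain ⟨c, hc⟩ : ∃ c, sc H A (k + 1) = c + 1 := ⟨sc H A (k + 1) - 1, by omega⟩
    have hf := sc_free H A (k + 1)
    have hA := sc_le H A (k + 1)
    rw [hc] at hf hA
    by_cases hk : k / 2 ^ sc H A (k + 1) = (k + 1) / 2 ^ sc H A (k + 1)
    · rw [← sc_const H A (k + 1) k hk]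
      omega
    rw [hc] at hk
    have hs := Nat.succ_div (a := k) (b := 2 ^ (c + 1))
    by_cases hd : 2 ^ (c + 1) ∣ k + 1
    · rw [if_pos hd] at hs
      set m := k / 2 ^ (c + 1) with hm
      have h1 : k + 1 = (m + 1) * 2 ^ (c + 1) := by
        rw [← hs]
        exact (Nat.div_mul_cancel hd).symm
      have hpos : 0 < 2 ^ c := by positivity
      have h2 : k / 2 ^ c = 2 * m + 1 := by
        rw [Nat.div_eq_iff hpos]
        rw [pow_succ] at h1
        constructor
        · nlinarith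
        · have : (2 * m + 1 + 1) * 2 ^ c = k + 1 := by
            rw [h1]
            ring
          have h3 : (2 * m + 1) * 2 ^ c + 2 ^ c = k + 1 := by
            rw [← this]
            ring
          omega
      have h3 : c ≤ sc H A k := by
        refine Scale_le H A k c (by omega) ?_
        rw [h2]
        intro b m' hb1 hb2 hH
        rw [hs] at hf
        rcases hf b m' hb1 (by omega) hH with h4 | h4
        · left
          rw [pow_succ] at h4
          nlinarith
        · right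
          rw [pow_succ] at h4
          nlinarith
      omega
    · rw [if_neg hd, add_zero] at hs
      exact absurd hs.symm hk
  · rcases Nat.eq_zero_or_pos (sc H A k) with h0 | h0
    · omega
    obtain ⟨c, hc⟩ : ∃ c, sc H A k = c + 1 := ⟨sc H A k - 1, by omega⟩
    have hf := sc_free H A k
    have hA := sc_le H A k
    rw [hc] at hf hA
    by_cases hk : (k + 1) / 2 ^ sc H A k = k / 2 ^ sc H A k
    · rw [sc_const H A k (k + 1) hk]
      omega
    rw [hc] at hk
    have hs := Nat.succ_div (a := k) (b := 2 ^ (c + 1))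
    by_cases hd : 2 ^ (c + 1) ∣ k + 1
    · rw [if_pos hd] at hs
      set m := k / 2 ^ (c + 1) with hm
      have h1 : k + 1 = (m + 1) * 2 ^ (c + 1) := by
        rw [← hs]
        exact (Nat.div_mul_cancel hd).symm
      have hpos : 0 < 2 ^ c := by positivity
      have h2 : (k + 1) / 2 ^ c = 2 * (m + 1) := by
        rw [h1, pow_succ, show (m + 1) * (2 ^ c * 2) = 2 * (m + 1) * 2 ^ c by ring]
        exact Nat.mul_div_cancel _ hpos
      have h3 : c ≤ sc H A (k + 1) := by
        refine Scale_le H A (k + 1) c (by omega) ?_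
        rw [h2]
        intro b m' hb1 hb2 hH
        rcases hf b m' hb1 (by omega) hH with h4 | h4
        · left
          rw [pow_succ] at h4
          nlinarith
        · right
          rw [pow_succ] at h4
          nlinarith
      omega
    · rw [if_neg hd, add_zero] at hs
      exact absurd hs hk

theorem sc_light (H : ℕ → ℕ → Prop) (A k : ℕ) (h : 1 ≤ sc H A k) :
    ¬ H (sc H A k) (k / 2 ^ sc H A k) := by
  intro hH
  have hpos : 0 < 2 ^ sc H A k := by positivity
  rcases sc_free H A k _ _ h le_rfl hH with h4 | h4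
  · nlinarith
  · nlinarith

theorem sc_near (H : ℕ → ℕ → Prop) (A k : ℕ) (h : sc H A k < A) :
    ∃ b m', 1 ≤ b ∧ b ≤ sc H A k + 1 ∧ H b m' ∧
      k / 2 ^ (sc H A k + 1) * 2 ^ (sc H A k + 1) < (m' + 1) * 2 ^ b + 2 * 2 ^ (sc H A k + 1) ∧
      m' * 2 ^ b < (k / 2 ^ (sc H A k + 1) + 3) * 2 ^ (sc H A k + 1) := by
  by_contra hcon
  have h1 : Free H (sc H A k + 1) (k / 2 ^ (sc H A k + 1)) := by
    intro b m' hb1 hb2 hH
    by_contra h2
    rw [not_or, not_le, not_le] at h2
    exact hcon ⟨b, m', hb1, hb2, hH, h2.1, h2.2⟩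
  have h2 := Scale_le H A k _ h h1
  omega

end Pool.Agent.Lib.HAP
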